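import Mathlib

/-! The scalar Cauchy formula on the boundary of a sector. -/

namespace Pool.Agent.P.MP_04e97d_an

open MeasureTheory Set Complex Filter Topology

lemma integrableOn_of_bound {F : Type*} [NormedAddCommGroup F] {h : ℝ → F} {C : ℝ}
    (hc : ContinuousOn h (Ioi 0)) (hb : ∀ r, 0 < r → ‖h r‖ ≤ C / (1 + r) ^ 2) :
    IntegrableOn h (Ioi 0) := by
  have hC : 0 ≤ C := by
    have := (norm_nonneg _).trans (hb 1 one_pos)
    by_contra hC
    have : C / (1 + 1) ^ 2 < 0 := div_neg_of_neg_of_pos (not_le.1 hC) (by norm_num)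
    linarith
  refine Integrable.mono' (integrable_inv_one_add_sq.const_mul C).integrableOn
    (hc.aestronglyMeasurable measurableSet_Ioi) ?_
  refine (ae_restrict_iff' measurableSet_Ioi).2 (ae_of_all _ fun r hr => (hb r hr).trans ?_)
  have hr : 0 < r := hr
  rw [← div_eq_mul_inv]
  gcongr
  nlinarith

lemma norm_ray (r θ : ℝ) (hr : 0 ≤ r) : ‖(r : ℂ) * exp (θ * I)‖ = r := by
  rw [norm_mul, norm_exp_ofReal_mul_I, mul_one, norm_real, Real.norm_eq_abs, abs_of_nonneg hr]

lemma arg_ray {r θ : ℝ} (hr : 0 < r) (h : |θ| < Real.pi) : arg ((r : ℂ) * exp (θ * I)) = θ := by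
  rw [exp_mul_I]
  exact arg_mul_cos_add_sin_mul_I hr ⟨(abs_lt.1 h).1, (abs_lt.1 h).2.le⟩

lemma ray_ne_zero {r : ℝ} (θ : ℝ) (hr : 0 < r) : (r : ℂ) * exp (θ * I) ≠ 0 :=
  mul_ne_zero (ofReal_ne_zero.2 hr.ne') (exp_ne_zero _)

lemma ray_mem_slit {r θ : ℝ} (hr : 0 < r) (h : |θ| < Real.pi) :
    (r : ℂ) * exp (θ * I) ∈ slitPlane := by
  rw [mem_slitPlane_iff_arg, arg_ray hr h]
  exact ⟨(abs_lt.1 h).2.ne, ray_ne_zero θ hr⟩

lemma ray_sub_sq (r θ y : ℝ) :
    ‖(r : ℂ) * exp (θ * I) - y‖ ^ 2 = r ^ 2 - 2 * r * y * Real.cos θ + y ^ 2 := by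
  rw [Complex.sq_norm, normSq_apply]
  simp only [sub_re, sub_im, re_ofReal_mul, im_ofReal_mul, exp_ofReal_mul_I_re,
    exp_ofReal_mul_I_im, ofReal_re, ofReal_im]
  linear_combination r ^ 2 * Real.sin_sq_add_cos_sq θ

/-- Lower bound for the distance from a ray to a real point. -/
lemma ray_lower {k : ℝ} (hk : k < 1) (hk' : -1 ≤ k) {y : ℝ} (hy : y ≠ 0) :
    ∃ c > 0, ∀ r θ : ℝ, 0 ≤ r → y * Real.cos θ ≤ |y| * k →
      c * (1 + r) ≤ ‖(r : ℂ) * exp (θ * I) - y‖ := by
  have hy' : 0 < |y| := abs_pos.2 hy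
  have hm : 0 < min 1 |y| := lt_min one_pos hy'
  refine ⟨Real.sqrt ((1 - k) / 2) * min 1 |y|, by
    have : 0 < (1 - k) / 2 := by linarith
    positivity, fun r θ hr h => ?_⟩
  have h1 : min 1 |y| * (1 + r) ≤ r + |y| := by
    have := min_le_left 1 |y|
    have := min_le_right 1 |y|
    nlinarith
  have h2 : (Real.sqrt ((1 - k) / 2) * (r + |y|)) ^ 2 ≤ ‖(r : ℂ) * exp (θ * I) - y‖ ^ 2 := by
    rw [ray_sub_sq, mul_pow, Real.sq_sqrt (by linarith), ← sq_abs y]
    have h3 : r * (y * Real.cos θ) ≤ r * (|y| * k) := mul_le_mul_of_nonneg_left h hr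
    have h4 : 0 ≤ (1 + k) * (r - |y|) ^ 2 := mul_nonneg (by linarith) (sq_nonneg _)
    nlinarith
  have h3 := abs_le_of_sq_le_sq' h2 (norm_nonneg _) |>.2
  calc _ = Real.sqrt ((1 - k) / 2) * (min 1 |y| * (1 + r)) := by ring
    _ ≤ Real.sqrt ((1 - k) / 2) * (r + |y|) := by gcongr
    _ ≤ _ := h3

lemma exp_add_eq (t y : ℝ) : exp ((t : ℂ) + y * I) = (Real.exp t : ℝ) * exp (y * I) := by
  rw [exp_add, ofReal_exp]

lemma ray_shift {u : ℂ → ℂ} (hu : DifferentiableOn ℂ u slitPlane) {ν : ℝ} (hν0 : 0 < ν)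
    (hνπ : ν < Real.pi)
    (hi1 : IntegrableOn (fun r : ℝ => u (r * exp ((-ν : ℝ) * I)) * exp ((-ν : ℝ) * I)) (Ioi 0))
    (hi2 : IntegrableOn (fun r : ℝ => u (r * exp (ν * I)) * exp (ν * I)) (Ioi 0))
    {C R0 : ℝ} (hd : ∀ t y : ℝ, R0 ≤ |t| → |y| ≤ ν →
      ‖u ((Real.exp t : ℝ) * exp (y * I))‖ * Real.exp t ≤ C * Real.exp (-|t|)) :
    ∫ r in Ioi (0 : ℝ), u (r * exp ((-ν : ℝ) * I)) * exp ((-ν : ℝ) * I) =
      ∫ r in Ioi (0 : ℝ), u (r * exp (ν * I)) * exp (ν * I) := by
  let G : ℂ → ℂ := fun w => u (exp w) * exp w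
  have hsub : ∀ θ : ℝ, IntegrableOn (fun r : ℝ => u (r * exp (θ * I)) * exp (θ * I)) (Ioi 0) →
      Tendsto (fun R : ℝ => ∫ t in (-R)..R, G (t + θ * I)) atTop
        (𝓝 (∫ r in Ioi (0 : ℝ), u (r * exp (θ * I)) * exp (θ * I))) := by
    intro θ hi
    have himg : Real.exp '' univ = Ioi 0 := by rw [image_univ, Real.range_exp]
    have hder : ∀ x ∈ (univ : Set ℝ), HasDerivWithinAt Real.exp (Real.exp x) univ x :=
      fun x _ => (Real.hasDerivAt_exp x).hasDerivWithinAt
    have hinj : InjOn Real.exp univ := Real.exp_injective.injOn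
    have hfun : (fun x => |Real.exp x| • (u ((Real.exp x : ℝ) * exp (θ * I)) * exp (θ * I))) =
        fun t : ℝ => G (t + θ * I) := by
      funext t
      simp only [G, exp_add_eq, abs_of_pos (Real.exp_pos t), real_smul]
      ring
    rw [← himg] at hi ⊢
    rw [integral_image_eq_integral_abs_deriv_smul MeasurableSet.univ hder hinj, hfun,
      Measure.restrict_univ]
    rw [integrableOn_image_iff_integrableOn_abs_deriv_smul MeasurableSet.univ hder hinj, hfun,
      integrableOn_univ] at hi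
    exact intervalIntegral_tendsto_integral hi tendsto_neg_atTop_atBot tendsto_id
  have hvert : ∀ s : ℝ → ℝ, (∀ R, |s R| = |R|) →
      Tendsto (fun R : ℝ => ∫ y in (-ν)..ν, G (s R + y * I)) atTop (𝓝 0) := by
    intro s hs
    have hlim : Tendsto (fun R : ℝ => C * Real.exp (-R) * |ν - -ν|) atTop (𝓝 0) := by
      have := (Real.tendsto_exp_neg_atTop_nhds_zero.const_mul C).mul_const |ν - -ν|
      simpa using this
    refine squeeze_zero_norm' ?_ hlim
    filter_upwards [eventually_ge_atTop R0, eventually_ge_atTop 0] with R h1 h2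
    refine intervalIntegral.norm_integral_le_of_norm_le_const fun y hy => ?_
    rw [uIoc_of_le (by linarith)] at hy
    have h3 := hd (s R) y (by rw [hs, abs_of_nonneg h2]; exact h1) (abs_le.2 ⟨hy.1.le, hy.2⟩)
    rw [hs, abs_of_nonneg h2] at h3
    simp only [G, exp_add_eq]
    rw [norm_mul, norm_ray _ _ (Real.exp_pos _).le]
    exact h3
  have hrect : ∀ R : ℝ, (∫ t in (-R)..R, G (t + (-ν : ℝ) * I)) - (∫ t in (-R)..R, G (t + ν * I)) +
      I • (∫ y in (-ν)..ν, G (R + y * I)) - I • (∫ y in (-ν)..ν, G ((-R : ℝ) + y * I)) = 0 := by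
    intro R
    refine integral_boundary_rect_eq_zero_of_differentiableOn G ⟨-R, -ν⟩ ⟨R, ν⟩ ?_
    intro w hw
    have h1 : w.im ∈ uIcc (-ν) ν := hw.2
    rw [uIcc_of_le (by linarith)] at h1
    have h2 : exp w ∈ slitPlane := by
      rw [← re_add_im w, exp_add_eq]
      exact ray_mem_slit (Real.exp_pos _) ((abs_le.2 h1).trans_lt hνπ)
    exact (((hu.differentiableAt (isOpen_slitPlane.mem_nhds h2)).comp w
      (differentiableAt_exp)).mul differentiableAt_exp).differentiableWithinAt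
  have hlim := (((hsub (-ν) hi1).sub (hsub ν hi2)).add
    ((hvert id fun _ => rfl).const_smul I)).sub ((hvert Neg.neg fun R => abs_neg R).const_smul I)
  simp only [id, hrect, smul_zero, add_zero, sub_zero] at hlim
  exact sub_eq_zero.1 (tendsto_nhds_unique hlim tendsto_const_nhds)

lemma explicit_ray {x θ φ : ℝ} (hx : 0 < x) (h0 : Real.sin θ ≠ 0) (hθ : |θ| < Real.pi)
    (hφ : |φ| < Real.pi) (hφθ : exp (φ * I) = -exp (θ * I))
    (hi : IntegrableOn (fun r : ℝ => exp (θ * I) * (((r : ℂ) * exp (θ * I) - x)⁻¹ -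
      ((r : ℂ) * exp (θ * I) + x)⁻¹)) (Ioi 0)) :
    ∫ r in Ioi (0 : ℝ), exp (θ * I) * (((r : ℂ) * exp (θ * I) - x)⁻¹ -
      ((r : ℂ) * exp (θ * I) + x)⁻¹) = (φ - θ) * I := by
  have hs1 : ∀ r : ℝ, 0 ≤ r → (x : ℂ) - r * exp (θ * I) ∈ slitPlane := by
    intro r hr
    rcases hr.eq_or_lt with rfl | hr
    · left; simpa using hx
    · right
      simp only [sub_im, ofReal_im, im_ofReal_mul, exp_ofReal_mul_I_im, zero_sub, ne_eq,
        neg_eq_zero]
      exact mul_ne_zero hr.ne' h0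
  have hs2 : ∀ r : ℝ, 0 ≤ r → (x : ℂ) + r * exp (θ * I) ∈ slitPlane := by
    intro r hr
    rcases hr.eq_or_lt with rfl | hr
    · left; simpa using hx
    · right
      simp only [add_im, ofReal_im, im_ofReal_mul, exp_ofReal_mul_I_im, zero_add, ne_eq]
      exact mul_ne_zero hr.ne' h0
  have hder : ∀ r ∈ Ici (0 : ℝ), HasDerivAt
      (fun r : ℝ => log ((x : ℂ) - r * exp (θ * I)) - log ((x : ℂ) + r * exp (θ * I)))
      (exp (θ * I) * (((r : ℂ) * exp (θ * I) - x)⁻¹ - ((r : ℂ) * exp (θ * I) + x)⁻¹)) r := by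
    intro r hr
    have h1 : HasDerivAt (fun r : ℝ => (r : ℂ) * exp (θ * I)) (exp (θ * I)) r := by
      simpa using (hasDerivAt_id r).ofReal_comp.mul_const (exp (θ * I))
    have h2 := (h1.const_sub (x : ℂ)).clog_real (hs1 r hr)
    have h3 := (h1.const_add (x : ℂ)).clog_real (hs2 r hr)
    refine (h2.fun_sub h3).congr_deriv ?_
    rw [← neg_sub (x : ℂ) ((r : ℂ) * _), inv_neg, add_comm ((r : ℂ) * _)]
    ring
  have hlim : Tendsto
      (fun r : ℝ => log ((x : ℂ) - r * exp (θ * I)) - log ((x : ℂ) + r * exp (θ * I))) atTop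
      (𝓝 ((φ - θ) * I)) := by
    have h0 : Tendsto (fun r : ℝ => ((x / r : ℝ) : ℂ)) atTop (𝓝 0) := by
      have := (continuous_ofReal.tendsto 0).comp (tendsto_const_nhds.div_atTop (a := x) tendsto_id)
      simpa [Function.comp_def] using this
    have hl : ∀ ψ : ℝ, |ψ| < Real.pi → Tendsto (fun r : ℝ => log ((x / r : ℝ) + exp (ψ * I)))
        atTop (𝓝 (ψ * I)) := by
      intro ψ hψ
      have h1 := h0.add_const (exp (ψ * I))
      rw [zero_add] at h1
      have h2 : exp (ψ * I) ∈ slitPlane := by simpa using ray_mem_slit one_pos hψ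
      have h3 := (continuousAt_clog h2).tendsto.comp h1
      rwa [log_exp (by simpa using (abs_lt.1 hψ).1) (by simpa using (abs_lt.1 hψ).2.le)] at h3
    rw [sub_mul]
    refine ((hl φ hφ).sub (hl θ hθ)).congr' ?_
    filter_upwards [eventually_gt_atTop 0] with r hr
    have hr' : (r : ℂ) ≠ 0 := ofReal_ne_zero.2 hr.ne'
    have e1 : (x : ℂ) - r * exp (θ * I) = r * ((x / r : ℝ) + exp (φ * I)) := by
      rw [hφθ]; push_cast; field_simp; ring
    have e2 : (x : ℂ) + r * exp (θ * I) = r * ((x / r : ℝ) + exp (θ * I)) := by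
      push_cast; field_simp
    have n1 := slitPlane_ne_zero (hs1 r hr.le)
    have n2 := slitPlane_ne_zero (hs2 r hr.le)
    rw [e1] at n1 ⊢
    rw [e2] at n2 ⊢
    rw [log_ofReal_mul hr (right_ne_zero_of_mul n1), log_ofReal_mul hr (right_ne_zero_of_mul n2)]
    ring
  rw [integral_Ioi_of_hasDerivAt_of_tendsto' hder hi hlim]
  simp

lemma pole_integrable {f : ℂ → ℂ} (hf : DifferentiableOn ℂ f slitPlane) {θ C x : ℝ}
    (hθ : |θ| < Real.pi) (hk : Real.cos θ < 1) (hx : 0 < x)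
    (hb : ∀ r : ℝ, 0 < r → ‖f (r * exp (θ * I))‖ ≤ C * (r / (1 + r) ^ 2)) :
    IntegrableOn (fun r : ℝ => f (r * exp (θ * I)) * exp (θ * I) * (r * exp (θ * I) - x)⁻¹)
      (Ioi 0) := by
  obtain ⟨c, hc, h⟩ := ray_lower hk (Real.neg_one_le_cos θ) hx.ne'
  have hl : ∀ r : ℝ, 0 ≤ r → c * (1 + r) ≤ ‖(r : ℂ) * exp (θ * I) - x‖ := fun r hr =>
    h r θ hr (by rw [abs_of_pos hx])
  have hC : 0 ≤ C := by
    have := (norm_nonneg _).trans (hb 1 one_pos)
    linarith
  refine integrableOn_of_bound (C := C / c) ?_ fun r hr => ?_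
  · refine ContinuousOn.mul (ContinuousOn.mul ?_ continuousOn_const) (ContinuousOn.inv₀ ?_ ?_)
    · exact hf.continuousOn.comp (by fun_prop) fun r hr => ray_mem_slit hr hθ
    · fun_prop
    · intro r hr h0
      have := hl r (le_of_lt hr)
      rw [h0, norm_zero] at this
      have hr : 0 < r := hr
      have : 0 < c * (1 + r) := by positivity
      linarith
  · rw [norm_mul, norm_mul, norm_exp_ofReal_mul_I, mul_one, norm_inv]
    have h1 := hb r hr
    have h2 := hl r hr.le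
    calc _ ≤ C * (r / (1 + r) ^ 2) * (c * (1 + r))⁻¹ := by gcongr
      _ = C / c / (1 + r) ^ 2 * (r / (1 + r)) := by field_simp
      _ ≤ C / c / (1 + r) ^ 2 * 1 := by
        gcongr
        rw [div_le_one (by positivity)]; linarith
      _ = _ := mul_one _

lemma diff_integrable {θ x : ℝ} (h0 : Real.sin θ ≠ 0) (hx : 0 < x) :
    IntegrableOn (fun r : ℝ => exp (θ * I) * (((r : ℂ) * exp (θ * I) - x)⁻¹ -
      ((r : ℂ) * exp (θ * I) + x)⁻¹)) (Ioi 0) := by
  have hk : |Real.cos θ| < 1 := by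
    rw [← sq_lt_one_iff_abs_lt_one]
    have := Real.sin_sq_add_cos_sq θ
    have := sq_pos_of_ne_zero h0
    linarith
  obtain ⟨c, hc, h⟩ := ray_lower hk (by linarith [abs_nonneg (Real.cos θ)]) hx.ne'
  obtain ⟨d, hd, h'⟩ := ray_lower hk (by linarith [abs_nonneg (Real.cos θ)]) (neg_ne_zero.2 hx.ne')
  have hl : ∀ r : ℝ, 0 ≤ r → c * (1 + r) ≤ ‖(r : ℂ) * exp (θ * I) - x‖ := fun r hr =>
    h r θ hr (by rw [← abs_mul]; exact le_abs_self _)
  have hl' : ∀ r : ℝ, 0 ≤ r → d * (1 + r) ≤ ‖(r : ℂ) * exp (θ * I) + x‖ := fun r hr => by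
    have := h' r θ hr (by rw [← abs_mul]; exact le_abs_self _)
    rwa [ofReal_neg, sub_neg_eq_add] at this
  have n1 : ∀ r : ℝ, 0 < r → (r : ℂ) * exp (θ * I) - x ≠ 0 := fun r hr h0 => by
    have := hl r hr.le
    rw [h0, norm_zero] at this
    have : 0 < c * (1 + r) := by positivity
    linarith
  have n2 : ∀ r : ℝ, 0 < r → (r : ℂ) * exp (θ * I) + x ≠ 0 := fun r hr h0 => by
    have := hl' r hr.le
    rw [h0, norm_zero] at this
    have : 0 < d * (1 + r) := by positivity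
    linarith
  refine integrableOn_of_bound (C := 2 * x / (c * d)) ?_ fun r hr => ?_
  · exact continuousOn_const.mul ((ContinuousOn.inv₀ (by fun_prop) n1).sub
      (ContinuousOn.inv₀ (by fun_prop) n2))
  · have e : ((r : ℂ) * exp (θ * I) - x)⁻¹ - ((r : ℂ) * exp (θ * I) + x)⁻¹ =
        ((2 * x : ℝ) : ℂ) * (((r : ℂ) * exp (θ * I) - x)⁻¹ * ((r : ℂ) * exp (θ * I) + x)⁻¹) := by
      have := n1 r hr; have := n2 r hr
      push_cast; field_simp; ring
    rw [e, norm_mul, norm_mul, norm_mul, norm_exp_ofReal_mul_I, one_mul, norm_inv, norm_inv,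
      norm_real, Real.norm_eq_abs, abs_of_pos (by positivity)]
    have h1 := hl r hr.le
    have h2 := hl' r hr.le
    calc _ ≤ 2 * x * ((c * (1 + r))⁻¹ * (d * (1 + r))⁻¹) := by gcongr
      _ = _ := by field_simp

lemma scalar_cauchy {f : ℂ → ℂ} (hf : DifferentiableOn ℂ f slitPlane) {ν C x : ℝ} (hν0 : 0 < ν)
    (hνπ : ν < Real.pi) (hx : 0 < x)
    (hb : ∀ r θ : ℝ, 0 < r → |θ| ≤ ν → ‖f (r * exp (θ * I))‖ ≤ C * (r / (1 + r) ^ 2)) :
    (∫ r in Ioi (0 : ℝ), f (r * exp ((-ν : ℝ) * I)) * exp ((-ν : ℝ) * I) *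
        (r * exp ((-ν : ℝ) * I) - x)⁻¹) -
      ∫ r in Ioi (0 : ℝ), f (r * exp (ν * I)) * exp (ν * I) * (r * exp (ν * I) - x)⁻¹ =
      2 * Real.pi * I * f x := by
  have hC : 0 ≤ C := by
    have := (norm_nonneg _).trans (hb 1 0 one_pos (by simpa using hν0.le))
    linarith
  have hxs : (x : ℂ) ∈ slitPlane := ofReal_mem_slitPlane.2 hx
  have hadd : ∀ z ∈ slitPlane, z + x ≠ 0 := by
    intro z hz h
    have : z = -x := eq_neg_of_add_eq_zero_left h
    rw [this, neg_ofReal_mem_slitPlane] at hz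
    linarith
  let u : ℂ → ℂ := fun z => dslope f x z + f x * (z + x)⁻¹
  have hu : DifferentiableOn ℂ u slitPlane :=
    ((differentiableOn_dslope (isOpen_slitPlane.mem_nhds hxs)).2 hf).add
      (((differentiableOn_id.add_const _).inv hadd).const_mul _)
  have hu' : ∀ z : ℂ, z ≠ x → u z = f z * (z - x)⁻¹ - f x * ((z - x)⁻¹ - (z + x)⁻¹) := by
    intro z hz
    simp only [u, dslope_of_ne _ hz, slope_def_field, div_eq_mul_inv]
    ring
  have hsin : Real.sin ν ≠ 0 := (Real.sin_pos_of_pos_of_lt_pi hν0 hνπ).ne'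
  have hcos : Real.cos ν < 1 := by
    have := Real.sin_sq_add_cos_sq ν
    have := sq_pos_of_ne_zero hsin
    nlinarith
  have hray : ∀ θ φ : ℝ, |θ| = ν → |φ| < Real.pi → exp (φ * I) = -exp (θ * I) →
      IntegrableOn (fun r : ℝ => u (r * exp (θ * I)) * exp (θ * I)) (Ioi 0) ∧
      ∫ r in Ioi (0 : ℝ), u (r * exp (θ * I)) * exp (θ * I) =
        (∫ r in Ioi (0 : ℝ), f (r * exp (θ * I)) * exp (θ * I) * (r * exp (θ * I) - x)⁻¹) -
          f x * ((φ - θ) * I) := by
    intro θ φ hθ hφ hφθ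
    have hs : Real.sin θ ≠ 0 := by
      rcases abs_eq hν0.le |>.1 hθ with rfl | rfl
      · exact hsin
      · rw [Real.sin_neg]; exact neg_ne_zero.2 hsin
    have hc : Real.cos θ < 1 := by rw [← Real.cos_abs, hθ]; exact hcos
    have h1 := pole_integrable hf (hθ ▸ hνπ) hc hx fun r hr => hb r θ hr hθ.le
    have h2 := diff_integrable hs hx
    have h3 : EqOn (fun r : ℝ => f (r * exp (θ * I)) * exp (θ * I) * (r * exp (θ * I) - x)⁻¹ -
        f x * (exp (θ * I) * (((r : ℂ) * exp (θ * I) - x)⁻¹ - ((r : ℂ) * exp (θ * I) + x)⁻¹)))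
        (fun r : ℝ => u (r * exp (θ * I)) * exp (θ * I)) (Ioi 0) := by
      intro r hr
      have hr : 0 < r := hr
      have : (r : ℂ) * exp (θ * I) ≠ x := by
        intro h
        have := congrArg im h
        simp only [im_ofReal_mul, exp_ofReal_mul_I_im, ofReal_im] at this
        exact mul_ne_zero hr.ne' hs this
      simp only [hu' _ this]
      ring
    refine ⟨(h1.sub (h2.const_mul (f x))).congr_fun h3 measurableSet_Ioi, ?_⟩
    rw [← setIntegral_congr_fun measurableSet_Ioi h3, integral_sub h1 (h2.const_mul (f x)),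
      integral_const_mul, explicit_ray hx hs (hθ ▸ hνπ) hφ hφθ h2]
  obtain ⟨i1, e1⟩ := hray (-ν) (Real.pi - ν) (by rw [abs_neg, abs_of_pos hν0])
    (by rw [abs_of_pos (by linarith)]; linarith)
    (by push_cast; rw [sub_mul, sub_eq_add_neg, exp_add, exp_pi_mul_I]; simp)
  obtain ⟨i2, e2⟩ := hray ν (ν - Real.pi) (abs_of_pos hν0)
    (by rw [abs_of_neg (by linarith)]; linarith)
    (by push_cast; rw [sub_mul, exp_sub, exp_pi_mul_I]; ring)
  have key := ray_shift hu hν0 hνπ i1 i2 (C := 2 * C + 8 * x * ‖f x‖ + (2 * C / x + 8 * ‖f x‖ / x))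
    (R0 := |Real.log (2 * x)| + |Real.log (x / 2)|) (by
      intro t y ht hy
      have hr := Real.exp_pos t
      set r := Real.exp t with hrdef
      set z : ℂ := r * exp (y * I) with hz
      have hzn : ‖z‖ = r := norm_ray _ _ hr.le
      have hxn : ‖(x : ℂ)‖ = x := by rw [norm_real, Real.norm_eq_abs, abs_of_pos hx]
      have hfz : ‖f z‖ ≤ C * (r / (1 + r) ^ 2) := hb r y hr hy
      have gen : ∀ m : ℝ, 0 < m → m ≤ ‖z - x‖ → m ≤ ‖z + x‖ →
          ‖u z‖ ≤ ‖f z‖ / m + 2 * x * ‖f x‖ / m ^ 2 := by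
        intro m hm h1 h2
        have n1 : z - x ≠ 0 := norm_pos_iff.1 (hm.trans_le h1)
        have n2 : z + x ≠ 0 := norm_pos_iff.1 (hm.trans_le h2)
        have e : (z - x)⁻¹ - (z + x)⁻¹ = 2 * x * ((z - x)⁻¹ * (z + x)⁻¹) := by
          field_simp; ring
        rw [hu' z (sub_ne_zero.1 n1), e]
        refine (norm_sub_le _ _).trans (add_le_add ?_ ?_)
        · rw [norm_mul, norm_inv, div_eq_mul_inv]; gcongr
        · rw [norm_mul, norm_mul, norm_mul, norm_mul, norm_inv, norm_inv, hxn, Complex.norm_two]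
          calc _ ≤ ‖f x‖ * (2 * x * (m⁻¹ * m⁻¹)) := by gcongr
            _ = _ := by field_simp
      have p1 : 0 ≤ 2 * C + 8 * x * ‖f x‖ := by positivity
      have p2 : 0 ≤ 2 * C / x + 8 * ‖f x‖ / x := by positivity
      rcases le_total 0 t with h0 | h0
      · rw [abs_of_nonneg h0] at ht ⊢
        have h1 : 2 * x ≤ r := by
          rw [hrdef, ← Real.log_le_iff_le_exp (by positivity)]
          linarith [le_abs_self (Real.log (2 * x)), abs_nonneg (Real.log (x / 2))]
        have h2 : 1 ≤ r := Real.one_le_exp h0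
        have h3 := gen (r / 2) (by positivity)
          (by have := norm_sub_norm_le z x; linarith)
          (by have := norm_sub_norm_le z (-x); rw [norm_neg, sub_neg_eq_add] at this; linarith)
        have h4 : ‖f z‖ ≤ C / r := by
          refine hfz.trans ?_
          rw [div_eq_mul_inv C]
          gcongr
          rw [div_le_iff₀ (by positivity), inv_mul_eq_div, le_div_iff₀ hr]
          nlinarith
        rw [Real.exp_neg, ← hrdef]
        calc _ ≤ (C / r / (r / 2) + 2 * x * ‖f x‖ / (r / 2) ^ 2) * r := by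
              gcongr
              exact h3.trans (by gcongr)
          _ = (2 * C + 8 * x * ‖f x‖) * r⁻¹ := by field_simp; ring
          _ ≤ _ := mul_le_mul_of_nonneg_right (by linarith) (by positivity)
      · rw [abs_of_nonpos h0] at ht ⊢
        have h1 : r ≤ x / 2 := by
          rw [hrdef, ← Real.le_log_iff_exp_le (by positivity)]
          linarith [neg_abs_le (Real.log (x / 2)), abs_nonneg (Real.log (2 * x))]
        have h3 := gen (x / 2) (by positivity)
          (by have := norm_sub_norm_le (x : ℂ) z; rw [norm_sub_rev] at this; linarith)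
          (by have := norm_sub_norm_le (x : ℂ) (-z)
              rw [norm_neg, sub_neg_eq_add, add_comm] at this; linarith)
        have h4 : ‖f z‖ ≤ C := by
          refine hfz.trans (mul_le_of_le_one_right hC ?_)
          rw [div_le_one (by positivity)]
          nlinarith
        rw [neg_neg, ← hrdef]
        calc _ ≤ (C / (x / 2) + 2 * x * ‖f x‖ / (x / 2) ^ 2) * r := by
              gcongr
              exact h3.trans (by gcongr)
          _ = (2 * C / x + 8 * ‖f x‖ / x) * r := by field_simp; ring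
          _ ≤ _ := mul_le_mul_of_nonneg_right (by linarith) (by positivity))
  rw [e1, e2] at key
  push_cast at key ⊢
  linear_combination key

end Pool.Agent.P.MP_04e97d_an
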