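import Mathlib

/-! Statement definitions for sectorial operators on complex Banach lattices. -/

namespace Pool.Agent.P.MP_04e97d_an

open MeasureTheory Set Complex
open scoped ENNReal

noncomputable section

/-- `X` is the complexification of the real Banach lattice `E`, with the lattice norm
`‖a + i b‖ = ‖ sup over θ of (cos θ a + sin θ b) ‖`. -/
def IsComplexification (E X : Type) [NormedAddCommGroup E] [NormedSpace ℝ E] [Lattice E]
    [NormedAddCommGroup X] [NormedSpace ℂ X] (ι : E →ₗ[ℝ] X) : Prop :=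
  Function.Bijective (fun p : E × E => ι p.1 + I • ι p.2) ∧
    ∀ a b : E, ∃ m : E, IsLUB (range fun θ : ℝ => Real.cos θ • a + Real.sin θ • b) m ∧
      ‖ι a + I • ι b‖ = ‖m‖

/-- Unconditionality of martingale differences. -/
def IsUMD (X : Type) [NormedAddCommGroup X] [NormedSpace ℂ X] [CompleteSpace X] : Prop :=
  ∃ (p : ℝ≥0∞) (β : NNReal), 1 < p ∧ p < ⊤ ∧
    ∀ (Ω : Type) (m : MeasurableSpace Ω) (μ : Measure Ω), IsProbabilityMeasure μ →
      ∀ (ℱ : Filtration ℕ m) (f : ℕ → Ω → X), Martingale f ℱ μ → (∀ n, MemLp (f n) p μ) →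
        ∀ (ε : ℕ → ℂ), (∀ n, ‖ε n‖ = 1) → ∀ N : ℕ,
          eLpNorm (fun w => ∑ n ∈ Finset.range N, ε n • (f (n + 1) w - f n w)) p μ ≤
            β * eLpNorm (fun w => ∑ n ∈ Finset.range N, (f (n + 1) w - f n w)) p μ

/-- The open sector of half-angle `ω`. -/
def sector (ω : ℝ) : Set ℂ := {z | z ≠ 0 ∧ |arg z| < ω}

variable {X : Type} [NormedAddCommGroup X] [NormedSpace ℂ X]

/-- The angles `ω` allowed in the definition of sectoriality. -/
def sectAngles (A : X →L[ℂ] X) : Set ℝ :=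
  {ω | 0 < ω ∧ ω < Real.pi ∧ spectrum ℂ A ⊆ closure (sector ω) ∧
    ∀ ε > 0, ∃ C : ℝ, ∀ z ∉ closure (sector (ω + ε)), ‖z • resolvent A z‖ ≤ C}

/-- A bounded operator is sectorial. -/
def IsSectorial (A : X →L[ℂ] X) : Prop := DenseRange A ∧ (sectAngles A).Nonempty

/-- The class of regularly decaying holomorphic functions on a sector. -/
def H0 (σ : ℝ) : Set (ℂ → ℂ) :=
  {f | DifferentiableOn ℂ f (sector σ) ∧ ∃ C > 0, ∃ ε > 0, ∀ z ∈ sector σ,
    ‖f z‖ ≤ C * ‖z‖ ^ (ε : ℝ) * (1 + ‖z‖) ^ (-2 * ε : ℝ)}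

/-- The Cauchy integral over the boundary of the sector of half-angle `ν`. -/
def cauchyCalc (A : X →L[ℂ] X) (ν : ℝ) (f : ℂ → ℂ) : X →L[ℂ] X :=
  (2 * Real.pi * I)⁻¹ •
    ((∫ r in Ioi (0 : ℝ), (f (r * exp (-ν * I)) * exp (-ν * I)) • resolvent A (r * exp (-ν * I))) -
      ∫ r in Ioi (0 : ℝ), (f (r * exp (ν * I)) * exp (ν * I)) • resolvent A (r * exp (ν * I)))

/-- `T` is a strongly continuous semigroup whose generator is the bounded operator `-A`. -/
def GeneratesNeg (A : X →L[ℂ] X) (T : ℝ → X →L[ℂ] X) : Prop :=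
  T 0 = 1 ∧ (∀ s ≥ 0, ∀ t ≥ 0, T (s + t) = T s * T t) ∧
    (∀ x, ContinuousOn (fun t => T t x) (Ici 0)) ∧
    ∀ x, HasDerivWithinAt (fun t => T t x) (-A x) (Ici 0) 0

/-- `A` has a bounded functional calculus for bounded holomorphic functions on some sector. -/
def HasBoundedHinf (A : X →L[ℂ] X) : Prop :=
  ∃ σ ν C : ℝ, sInf (sectAngles A) < ν ∧ ν < σ ∧ σ < Real.pi ∧
    ∀ f ∈ H0 σ, ∀ M : ℝ, (∀ z ∈ sector σ, ‖f z‖ ≤ M) → ‖cauchyCalc A ν f‖ ≤ C * M

/-- The imaginary power `A ^ (i s)`, defined by regularisation with `z / (1 + z) ^ 2`,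
is bounded on its domain. -/
def ImagPowerBounded (A : X →L[ℂ] X) (s : ℝ) : Prop :=
  ∃ ν C : ℝ, sInf (sectAngles A) < ν ∧ ν < Real.pi ∧
    ∀ x y : X, cauchyCalc A ν (fun z => z / (1 + z) ^ 2) y =
      cauchyCalc A ν (fun z => z / (1 + z) ^ 2 * z ^ (I * s)) x → ‖y‖ ≤ C * ‖x‖

end

end Pool.Agent.P.MP_04e97d_an
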