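import Pool.Agent.P.MP_04e97d_an.Main

/-! Test functions and the failure of both functional calculus properties. -/

namespace Pool.Agent.P.MP_04e97d_an

open Set Complex Filter Topology

noncomputable section

lemma one_add_lower {σ : ℝ} (h0 : 0 ≤ σ) (hσ : σ < Real.pi) :
    ∃ c > 0, ∀ z : ℂ, |arg z| ≤ σ → c * (1 + ‖z‖) ≤ ‖1 + z‖ := by
  have hk : -Real.cos σ < 1 := by
    have := Real.cos_lt_cos_of_nonneg_of_le_pi h0 le_rfl hσ
    rw [Real.cos_pi] at this; linarith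
  obtain ⟨c, hc, h⟩ := ray_lower hk (neg_le_neg (Real.cos_le_one σ)) (y := -1) (by norm_num)
  refine ⟨c, hc, fun z hz => ?_⟩
  have := h ‖z‖ (arg z) (norm_nonneg z) (by
    have := Real.cos_le_cos_of_nonneg_of_le_pi (abs_nonneg _) hσ.le hz
    rw [Real.cos_abs] at this
    simpa using this)
  rwa [norm_mul_exp_arg_mul_I, ofReal_neg, ofReal_one, sub_neg_eq_add, add_comm z] at this

lemma norm_ipow_le (z : ℂ) (s : ℝ) : ‖z ^ (I * s)‖ ≤ Real.exp (|s| * Real.pi) := by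
  refine (norm_cpow_le _ _).trans ?_
  have h1 : (I * s).re = 0 := by simp
  have h2 : (I * s).im = s := by simp
  rw [h1, h2, Real.rpow_zero, one_div, ← Real.exp_neg, Real.exp_le_exp]
  refine (neg_le_abs _).trans ?_
  rw [abs_mul, mul_comm]
  gcongr
  exact abs_arg_le_pi z

lemma one_add_ne {z : ℂ} (hz : z ∈ slitPlane) {a : ℝ} (ha : 0 < a) : 1 + a * z ≠ 0 := by
  intro h
  have h1 := congrArg re h
  have h2 := congrArg im h
  simp only [add_re, one_re, re_ofReal_mul, zero_re, add_im, one_im, im_ofReal_mul, zero_im,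
    zero_add, mul_eq_zero, ha.ne', false_or] at h1 h2
  rcases hz with h3 | h3
  · nlinarith [mul_pos ha h3]
  · exact h3 h2

lemma ipow_diff (s : ℝ) : DifferentiableOn ℂ (fun z : ℂ => z ^ (I * s)) slitPlane :=
  differentiableOn_id.cpow_const fun _ h => h

def s0 : ℝ := Real.pi / Real.log 2

lemma nu_ipow (l : ℕ) : (nu l : ℂ) ^ (I * s0) = (-1) ^ l := by
  have h2 : Real.log 2 ≠ 0 := (Real.log_pos one_lt_two).ne'
  rw [cpow_def_of_ne_zero (ofReal_ne_zero.2 (nu_pos l).ne'), ← ofReal_log (nu_pos l).le, nu,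
    Real.log_pow, one_div, Real.log_inv, ← exp_neg_pi_mul_I, ← exp_nat_mul]
  congr 1
  have : Real.log 2 * s0 = Real.pi := by unfold s0; field_simp
  rw [← this]; push_cast; ring

lemma phi_diff : DifferentiableOn ℂ (fun z : ℂ => z / (1 + z) ^ 2) slitPlane :=
  differentiableOn_id.div (by fun_prop) fun z hz =>
    pow_ne_zero _ (by simpa using one_add_ne hz one_pos)

lemma nu0 {ν : ℝ} (h : sInf (sectAngles AX) < ν) : 0 < ν :=
  lt_of_le_of_lt (Real.sInf_nonneg fun _ hx => hx.1.le) h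

theorem not_bip : ¬ ImagPowerBounded AX s0 := by
  rintro ⟨ν, C, h1, h2, h⟩
  obtain ⟨c, hc, hl⟩ := one_add_lower (nu0 h1).le h2
  have hb : ∀ r θ : ℝ, 0 < r → |θ| ≤ ν → ‖(r * exp (θ * I)) / (1 + r * exp (θ * I)) ^ 2‖ ≤
      c⁻¹ ^ 2 * (r / (1 + r) ^ 2) := by
    intro r θ hr hθ
    have := hl (r * exp (θ * I)) (by rwa [arg_ray hr (hθ.trans_lt h2)])
    rw [norm_ray _ _ hr.le] at this
    rw [norm_div, norm_pow, norm_ray _ _ hr.le]
    calc _ ≤ r / (c * (1 + r)) ^ 2 := by gcongr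
      _ = _ := by field_simp
  have e1 := fun l => calc_eigen sectorialX.2 h1 h2 phi_diff hb (nu_pos l) (AX_vX l)
  have e2 := fun l => calc_eigen sectorialX.2 h1 h2 (phi_diff.mul (ipow_diff s0))
    (C := c⁻¹ ^ 2 * Real.exp (|s0| * Real.pi)) (fun r θ hr hθ => by
      rw [Pi.mul_apply, norm_mul, mul_right_comm]
      gcongr
      · exact hb r θ hr hθ
      · exact norm_ipow_le _ _) (nu_pos l) (AX_vX l)
  obtain ⟨p, hp, hlt⟩ := GG_unboundedX C
  refine absurd (h _ _ ?_) (not_le.2 hlt)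
  refine Submodule.span_induction (p := fun p _ =>
    cauchyCalc AX ν (fun z => z / (1 + z) ^ 2) (eH.symm p.2) =
      cauchyCalc AX ν (fun z => z / (1 + z) ^ 2 * z ^ (I * s0)) (eH.symm p.1)) ?_ ?_ ?_ ?_ hp
  · rintro _ ⟨l, rfl⟩
    simp only [map_smul]
    refine (congrArg _ (e1 l)).trans (Eq.trans ?_ (e2 l).symm)
    rw [smul_smul, Pi.mul_apply, nu_ipow, mul_comm]
  · simp
  · intro a b _ _ ha hb
    simp only [Prod.fst_add, Prod.snd_add, map_add, ha, hb]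
  · intro c a _ ha
    simp only [Prod.smul_fst, Prod.smul_snd, map_smul, ha]

/-- The test functions. -/
def ftest (a : ℝ) (z : ℂ) : ℂ :=
  z ^ (I * s0) * ((a * z) / (1 + a * z) * (1 + (a⁻¹ : ℝ) * z)⁻¹)

lemma ftest_diff {a : ℝ} (ha : 0 < a) : DifferentiableOn ℂ (ftest a) slitPlane :=
  (ipow_diff s0).mul ((DifferentiableOn.div (by fun_prop) (by fun_prop) fun _ hz =>
    one_add_ne hz ha).mul (DifferentiableOn.inv (by fun_prop) fun _ hz =>
      one_add_ne hz (inv_pos.2 ha)))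

lemma ftest_bound {σ c : ℝ} (hc : 0 < c) (hl : ∀ z : ℂ, |arg z| ≤ σ → c * (1 + ‖z‖) ≤ ‖1 + z‖)
    {a : ℝ} (ha : 1 ≤ a) {z : ℂ} (hz : |arg z| ≤ σ) :
    ‖ftest a z‖ ≤ Real.exp (|s0| * Real.pi) * c⁻¹ ^ 2 ∧
    ‖ftest a z‖ ≤ Real.exp (|s0| * Real.pi) * c⁻¹ ^ 2 * a ^ 2 * (‖z‖ / (1 + ‖z‖) ^ 2) := by
  have ha0 : 0 < a := one_pos.trans_le ha
  have h1 := hl (a * z) (by rwa [arg_real_mul _ ha0])
  have h2 := hl ((a⁻¹ : ℝ) * z) (by rwa [arg_real_mul _ (inv_pos.2 ha0)])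
  rw [norm_mul, norm_real, Real.norm_eq_abs] at h1 h2
  rw [abs_of_pos ha0] at h1
  rw [abs_of_pos (inv_pos.2 ha0)] at h2
  have hr := norm_nonneg z
  have h3 : ‖ftest a z‖ ≤ Real.exp (|s0| * Real.pi) * c⁻¹ ^ 2 *
      (a * ‖z‖ / (1 + a * ‖z‖) * (a / (a + ‖z‖))) := by
    rw [ftest, norm_mul, norm_mul, norm_div, norm_inv, norm_mul, norm_real, Real.norm_eq_abs,
      abs_of_pos ha0]
    have := norm_ipow_le z s0
    calc _ ≤ Real.exp (|s0| * Real.pi) * (a * ‖z‖ / (c * (1 + a * ‖z‖)) *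
          (c * (1 + a⁻¹ * ‖z‖))⁻¹) := by gcongr
      _ = _ := by field_simp
  constructor
  · refine h3.trans (mul_le_of_le_one_right (by positivity) ?_)
    refine mul_le_one₀ ?_ (by positivity) ?_
    · rw [div_le_one (by positivity)]; linarith
    · rw [div_le_one (by positivity)]; linarith
  · refine h3.trans ?_
    rw [mul_assoc _ (a ^ 2)]
    refine mul_le_mul_of_nonneg_left ?_ (by positivity)
    have h4 : ‖z‖ ≤ a * ‖z‖ := le_mul_of_one_le_left hr ha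
    calc _ ≤ a * ‖z‖ / (1 + ‖z‖) * (a / (1 + ‖z‖)) := by gcongr
      _ = _ := by field_simp

lemma ftest_tendsto (l : ℕ) : Tendsto (fun a : ℝ => ftest a (nu l)) atTop (𝓝 ((-1) ^ l)) := by
  have h0 : Tendsto (fun a : ℝ => ((a⁻¹ : ℝ) : ℂ)) atTop (𝓝 0) := by
    have := (continuous_ofReal.tendsto 0).comp tendsto_inv_atTop_zero
    simpa [Function.comp_def] using this
  have hn : (nu l : ℂ) ≠ 0 := ofReal_ne_zero.2 (nu_pos l).ne'
  have h1 : Tendsto (fun a : ℝ => (nu l : ℂ) / ((a⁻¹ : ℝ) + nu l) *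
      (1 + (a⁻¹ : ℝ) * (nu l : ℂ))⁻¹)
      atTop (𝓝 ((nu l : ℂ) / (0 + nu l) * (1 + 0 * (nu l : ℂ))⁻¹)) :=
    (tendsto_const_nhds.div (h0.add_const _) (by simpa using hn)).mul
      (((h0.mul_const (nu l : ℂ)).const_add 1).inv₀ (by simp))
  have h2 := h1.const_mul ((-1 : ℂ) ^ l)
  rw [zero_add, div_self hn, zero_mul, add_zero, inv_one, mul_one, mul_one] at h2
  refine h2.congr' ?_
  filter_upwards [eventually_gt_atTop 0] with a ha
  have ha' : (a : ℂ) ≠ 0 := ofReal_ne_zero.2 ha.ne'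
  rw [ftest, nu_ipow]
  congr 2
  rw [← mul_div_mul_left _ _ ha', mul_add, ofReal_inv, mul_inv_cancel₀ ha']

theorem not_hinf : ¬ HasBoundedHinf AX := by
  rintro ⟨σ, ν, C, h1, h2, h3, h⟩
  have hνπ := h2.trans h3
  obtain ⟨c, hc, hl⟩ := one_add_lower ((nu0 h1).trans h2).le h3
  set M := Real.exp (|s0| * Real.pi) * c⁻¹ ^ 2 with hM
  have hM0 : 0 < M := by positivity
  have hn : ∀ a : ℝ, 1 ≤ a → ‖cauchyCalc AX ν (ftest a)‖ ≤ C * M := by
    intro a ha
    have ha0 : 0 < a := one_pos.trans_le ha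
    refine h _ ⟨(ftest_diff ha0).mono fun z hz => ?_, M * a ^ 2, by positivity, 1, one_pos,
      fun z hz => ?_⟩ M fun z hz => (ftest_bound hc hl ha hz.2.le).1
    · exact mem_slitPlane_iff_arg.2 ⟨((le_abs_self _).trans_lt (hz.2.trans h3)).ne, hz.1⟩
    · refine (ftest_bound hc hl ha hz.2.le).2.trans (le_of_eq ?_)
      rw [Real.rpow_one, mul_one, Real.rpow_neg (by positivity), Real.rpow_ofNat]
      ring
  have e1 : ∀ a : ℝ, 1 ≤ a → ∀ l, cauchyCalc AX ν (ftest a) (vX l) = ftest a (nu l) • vX l :=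
    fun a ha l => calc_eigen sectorialX.2 h1 hνπ (ftest_diff (one_pos.trans_le ha))
      (C := M * a ^ 2) (fun r θ hr hθ => by
        have := (ftest_bound hc hl ha (z := r * exp (θ * I))
          (by rw [arg_ray hr (hθ.trans_lt hνπ)]; linarith)).2
        rwa [norm_ray _ _ hr.le] at this) (nu_pos l) (AX_vX l)
  obtain ⟨p, hp, hlt⟩ := GG_unboundedX (C * M)
  generalize hS : (fun a => cauchyCalc AX ν (ftest a)) = S
  have hn' : ∀ a : ℝ, 1 ≤ a → ‖S a‖ ≤ C * M := hS ▸ hn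
  replace e1 : ∀ a : ℝ, 1 ≤ a → ∀ l, S a (vX l) = ftest a (nu l) • vX l := hS ▸ e1
  have hlim : Tendsto (fun a : ℝ => S a (eH.symm p.1)) atTop (𝓝 (eH.symm p.2)) := by
    refine Submodule.span_induction (p := fun (p : H × H) _ =>
      Tendsto (fun a : ℝ => S a (eH.symm p.1)) atTop (𝓝 (eH.symm p.2))) ?_ ?_ ?_ ?_ hp
    · rintro _ ⟨l, rfl⟩
      simp only [map_smul]
      refine ((ftest_tendsto l).smul_const (vX l)).congr' ?_
      filter_upwards [eventually_ge_atTop 1] with a ha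
      exact (e1 a ha l).symm
    · simp
    · intro a b _ _ ha hb
      simpa only [Prod.fst_add, Prod.snd_add, map_add] using ha.add hb
    · intro c a _ ha
      simpa only [Prod.smul_fst, Prod.smul_snd, map_smul] using ha.const_smul c
  refine absurd (le_of_tendsto hlim.norm ?_) (not_le.2 hlt)
  filter_upwards [eventually_ge_atTop 1] with a ha
  exact (S a).le_of_opNorm_le (hn' a ha) _

end

end Pool.Agent.P.MP_04e97d_an
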