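import Pool.Agent.P.MP_04e97d_an.Defs
import Pool.Agent.P.MP_04e97d_an.Cauchy

/-! Sectoriality and the functional calculus on eigenvectors. -/

namespace Pool.Agent.P.MP_04e97d_an

open MeasureTheory Set Complex Filter Topology

variable {X : Type} [NormedAddCommGroup X] [NormedSpace ℂ X]

lemma sub_apply_eq (A : X →L[ℂ] X) (z : ℂ) (v : X) :
    (algebraMap ℂ (X →L[ℂ] X) z - A) v = z • v - A v := by
  simp [Algebra.algebraMap_eq_smul_one]

lemma resolvent_eigen {A : X →L[ℂ] X} {z x : ℂ} (hz : z ∉ spectrum ℂ A) {v : X}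
    (hv : A v = x • v) : resolvent A z v = (z - x)⁻¹ • v := by
  have hu := spectrum.notMem_iff.1 hz
  have h1 : resolvent A z ((algebraMap ℂ (X →L[ℂ] X) z - A) v) = v := by
    rw [← mul_apply_eq_comp, resolvent, Ring.inverse_mul_cancel _ hu, one_apply_eq_self]
  rw [sub_apply_eq, hv, ← sub_smul, map_smul] at h1
  by_cases h : z - x = 0
  · rw [h, zero_smul] at h1
    rw [← h1]; simp
  · calc resolvent A z v = (z - x)⁻¹ • ((z - x) • resolvent A z v) := by
          rw [smul_smul, inv_mul_cancel₀ h, one_smul]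
      _ = _ := by rw [h1]

lemma ray_notMem_closure {r θ a : ℝ} (hr : 0 < r) (hθ : |θ| < Real.pi) (ha : a < |θ|) :
    (r : ℂ) * exp (θ * I) ∉ closure (sector a) := by
  rw [mem_closure_iff_frequently, not_frequently]
  have h1 := (continuousAt_arg (ray_mem_slit hr hθ)).abs
  have h2 : a < |arg ((r : ℂ) * exp (θ * I))| := by rwa [arg_ray hr hθ]
  filter_upwards [h1.eventually (lt_mem_nhds h2)] with z hz h
  exact lt_asymm hz h.2

lemma calc_eigen [CompleteSpace X] {A : X →L[ℂ] X} (hA : (sectAngles A).Nonempty) {ν : ℝ}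
    (hν : sInf (sectAngles A) < ν) (hνπ : ν < Real.pi) {f : ℂ → ℂ}
    (hf : DifferentiableOn ℂ f slitPlane) {C : ℝ}
    (hb : ∀ r θ : ℝ, 0 < r → |θ| ≤ ν → ‖f (r * exp (θ * I))‖ ≤ C * (r / (1 + r) ^ 2))
    {x : ℝ} (hx : 0 < x) {v : X} (hv : A v = (x : ℂ) • v) :
    cauchyCalc A ν f v = f x • v := by
  obtain ⟨ω, ⟨hω0, -, hsp, hres⟩, hων⟩ := exists_lt_of_csInf_lt hA hν
  have hν0 : 0 < ν := hω0.trans hων
  obtain ⟨D, hD⟩ := hres ((ν - ω) / 2) (by linarith)
  have hC : 0 ≤ C := by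
    have := (norm_nonneg _).trans (hb 1 0 one_pos (by simpa using hν0.le))
    linarith
  have hray : ∀ θ : ℝ, |θ| = ν →
      (∫ r in Ioi (0 : ℝ), (f (r * exp (θ * I)) * exp (θ * I)) • resolvent A (r * exp (θ * I))) v
        = (∫ r in Ioi (0 : ℝ), f (r * exp (θ * I)) * exp (θ * I) * (r * exp (θ * I) - x)⁻¹) • v := by
    intro θ hθ
    have hns : ∀ r : ℝ, 0 < r → (r : ℂ) * exp (θ * I) ∉ spectrum ℂ A := fun r hr h =>
      ray_notMem_closure hr (hθ ▸ hνπ) (hθ ▸ hων) (hsp h)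
    have hi : IntegrableOn (fun r : ℝ => (f (r * exp (θ * I)) * exp (θ * I)) •
        resolvent A (r * exp (θ * I))) (Ioi 0) := by
      refine integrableOn_of_bound (C := C * D) ?_ fun r hr => ?_
      · refine ContinuousOn.fun_smul (ContinuousOn.mul ?_ continuousOn_const) ?_
        · exact hf.continuousOn.comp (by fun_prop) fun r hr => ray_mem_slit hr (hθ ▸ hνπ)
        · intro r hr
          have h1 := (spectrum.hasDerivAt_resolvent_const_left
            (not_not.1 (hns r hr))).continuousAt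
          exact (ContinuousAt.comp (f := fun r : ℝ => (r : ℂ) * exp (θ * I)) h1
            (by fun_prop)).continuousWithinAt
      · have h1 := hD _ (ray_notMem_closure hr (hθ ▸ hνπ) (a := ω + (ν - ω) / 2)
          (by rw [hθ]; linarith))
        rw [norm_smul, norm_ray _ _ hr.le] at h1
        rw [norm_smul, norm_mul, norm_exp_ofReal_mul_I, mul_one]
        have h2 := hb r θ hr hθ.le
        calc _ ≤ C * (r / (1 + r) ^ 2) * ‖resolvent A (r * exp (θ * I))‖ := by gcongr
          _ = C * (r * ‖resolvent A (r * exp (θ * I))‖) / (1 + r) ^ 2 := by ring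
          _ ≤ _ := by gcongr
    rw [ContinuousLinearMap.integral_apply hi, ← integral_smul_const]
    refine setIntegral_congr_fun measurableSet_Ioi fun r hr => ?_
    simp only [smul_apply, resolvent_eigen (hns r hr) hv, smul_smul]
  have h1 := hray (-ν) (by rw [abs_neg, abs_of_pos hν0])
  have h2 := hray ν (abs_of_pos hν0)
  have h3 := scalar_cauchy hf hν0 hνπ hx hb
  rw [cauchyCalc, ← ofReal_neg, smul_apply, sub_apply, h1, h2, ← sub_smul, h3, smul_smul,
    inv_mul_cancel_left₀ two_pi_I_ne_zero]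

lemma dissipative {A : X →L[ℂ] X} {T : ℝ → X →L[ℂ] X} (hT : GeneratesNeg A T)
    (hc : ∀ t ≥ 0, ‖T t‖ ≤ 1) (z : ℂ) (x : X) : -z.re * ‖x‖ ≤ ‖z • x - A x‖ := by
  have h1 := hT.2.2.2 x
  rw [hasDerivWithinAt_iff_tendsto_slope, Ici_sdiff_left] at h1
  have h2 : Tendsto (fun t : ℝ => ‖z • x + slope (fun t => T t x) 0 t‖) (𝓝[>] 0)
      (𝓝 ‖z • x - A x‖) := by
    rw [sub_eq_add_neg]
    exact (h1.const_add _).norm
  refine ge_of_tendsto h2 ?_
  filter_upwards [self_mem_nhdsWithin] with t ht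
  have ht : 0 < t := ht
  have e : z • x + slope (fun t => T t x) 0 t = (t⁻¹ : ℝ) • T t x - ((t⁻¹ : ℝ) - z) • x := by
    rw [slope_def_module, hT.1, sub_zero, one_apply_eq_self, smul_sub, sub_smul,
      Complex.coe_smul]
    abel
  have h3 : ‖(t⁻¹ : ℝ) • T t x‖ ≤ t⁻¹ * ‖x‖ := by
    rw [norm_smul, Real.norm_eq_abs, abs_of_pos (inv_pos.2 ht)]
    gcongr
    simpa using (T t).le_of_opNorm_le (hc t ht.le) x
  have h4 : (t⁻¹ - z.re) * ‖x‖ ≤ ‖(((t⁻¹ : ℝ) : ℂ) - z) • x‖ := by
    rw [norm_smul]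
    gcongr
    simpa using re_le_norm (((t⁻¹ : ℝ) : ℂ) - z)
  rw [e, norm_sub_rev]
  have := norm_sub_norm_le ((((t⁻¹ : ℝ) : ℂ) - z) • x) ((t⁻¹ : ℝ) • T t x)
  linarith

lemma denseRange_of_eigen {S : X →L[ℂ] X} {v : ℕ → X} {c : ℕ → ℂ}
    (hd : Dense (Submodule.span ℂ (range v) : Set X)) (hc : ∀ l, c l ≠ 0)
    (h : ∀ l, S (v l) = c l • v l) : DenseRange S := by
  refine hd.mono ?_
  change (Submodule.span ℂ (range v) : Set X) ⊆ (S.range : Set X)
  rw [SetLike.coe_subset_coe, Submodule.span_le]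
  rintro _ ⟨l, rfl⟩
  exact ⟨(c l)⁻¹ • v l, by
    change S _ = _
    rw [map_smul, h, smul_smul, inv_mul_cancel₀ (hc l), one_smul]⟩

lemma sectorial_of_contractive [CompleteSpace X] {A : X →L[ℂ] X} {T : ℝ → X →L[ℂ] X}
    (hT : GeneratesNeg A T) (hc : ∀ t ≥ 0, ‖T t‖ ≤ 1) {v : ℕ → X} {c : ℕ → ℝ}
    (hd : Dense (Submodule.span ℂ (range v) : Set X)) (hpos : ∀ l, 0 < c l)
    (h : ∀ l, A (v l) = (c l : ℂ) • v l) : IsSectorial A := by
  have hunit : ∀ z : ℂ, z.re < 0 → IsUnit (algebraMap ℂ (X →L[ℂ] X) z - A) := by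
    intro z hz
    rw [ContinuousLinearMap.isUnit_iff_bijective,
      ContinuousLinearMap.bijective_iff_dense_range_and_antilipschitz]
    refine ⟨?_, NNReal.mk (-z.re)⁻¹ (inv_nonneg.2 (by linarith)), ?_⟩
    · rw [← Submodule.dense_iff_topologicalClosure_eq_top]
      refine denseRange_of_eigen (c := fun l => z - c l) hd (fun l h0 => ?_) fun l => ?_
      · have := congrArg re h0
        simp only [sub_re, ofReal_re, zero_re] at this
        linarith [hpos l]
      · rw [sub_apply_eq, h, sub_smul]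
    · refine AddMonoidHomClass.antilipschitz_of_bound _ fun x => ?_
      rw [sub_apply_eq, NNReal.coe_mk, ← div_eq_inv_mul, le_div_iff₀ (by linarith), mul_comm]
      exact dissipative hT hc z x
  have hnorm : ∀ z : ℂ, z.re < 0 → ‖resolvent A z‖ ≤ (-z.re)⁻¹ := by
    intro z hz
    refine ContinuousLinearMap.opNorm_le_bound _ (inv_nonneg.2 (by linarith)) fun y => ?_
    have h1 := dissipative hT hc z (resolvent A z y)
    rw [← sub_apply_eq, ← mul_apply_eq_comp, resolvent, Ring.mul_inverse_cancel _ (hunit z hz),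
      one_apply_eq_self] at h1
    rw [← div_eq_inv_mul, le_div_iff₀ (by linarith), mul_comm]
    exact h1
  refine ⟨denseRange_of_eigen hd (fun l => ofReal_ne_zero.2 (hpos l).ne') h, Real.pi / 2,
    by positivity, by linarith [Real.pi_pos], ?_, ?_⟩
  · intro z hz
    have hre : 0 ≤ z.re := not_lt.1 fun h => spectrum.mem_iff.1 hz (hunit z h)
    have hlim : Tendsto (fun t : ℝ => z + t) (𝓝[>] 0) (𝓝 z) := by
      have : Tendsto (fun t : ℝ => z + t) (𝓝 0) (𝓝 (z + (0 : ℝ))) :=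
        (continuous_const.add continuous_ofReal).tendsto 0
      simpa using this.mono_left nhdsWithin_le_nhds
    refine mem_closure_of_tendsto hlim ?_
    filter_upwards [self_mem_nhdsWithin] with t ht
    have ht : 0 < t := ht
    have h1 : 0 < (z + t).re := by simp only [add_re, ofReal_re]; linarith
    refine ⟨fun h0 => ?_, abs_arg_lt_pi_div_two_iff.2 (Or.inl h1)⟩
    rw [h0, zero_re] at h1
    exact lt_irrefl _ h1
  · intro ε hε
    refine ⟨|(Real.sin ε)⁻¹|, fun z hz => ?_⟩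
    by_cases h0 : z = 0
    · simp [h0]
    have h1 : Real.pi / 2 + ε ≤ |arg z| := not_lt.1 fun h => hz (subset_closure ⟨h0, h⟩)
    have h2 := abs_arg_le_pi z
    have h3 : Real.cos (arg z) ≤ -Real.sin ε := by
      rw [← Real.cos_abs, ← Real.cos_add_pi_div_two, add_comm]
      exact Real.cos_le_cos_of_nonneg_of_le_pi (by positivity) h2 h1
    have h4 : 0 < Real.sin ε := Real.sin_pos_of_pos_of_lt_pi hε (by linarith [Real.pi_pos])
    have h5 : 0 < ‖z‖ := norm_pos_iff.2 h0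
    have h6 : ‖z‖ * Real.sin ε ≤ -z.re := by
      rw [← norm_mul_cos_arg z]
      nlinarith
    have h7 : 0 < ‖z‖ * Real.sin ε := by positivity
    rw [norm_smul, abs_of_pos (inv_pos.2 h4)]
    calc _ ≤ ‖z‖ * (-z.re)⁻¹ := by gcongr; exact hnorm z (by linarith)
      _ ≤ ‖z‖ * (‖z‖ * Real.sin ε)⁻¹ := by gcongr
      _ = _ := by field_simp

end Pool.Agent.P.MP_04e97d_an
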