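import Pool.Agent.P.MP_04e97d_an.Defs

/-! Spaces isomorphic to a Hilbert space have unconditional martingale differences. -/

namespace Pool.Agent.P.MP_04e97d_an

open MeasureTheory Finset

lemma norm_sum_orth {V : Type*} [NormedAddCommGroup V] [InnerProductSpace ℂ V] (D : ℕ → V)
    (hD : ∀ m n, m < n → inner ℂ (D n) (D m) = 0) (ε : ℕ → ℂ) (hε : ∀ n, ‖ε n‖ = 1) (N : ℕ) :
    ‖∑ n ∈ range N, ε n • D n‖ ^ 2 = ∑ n ∈ range N, ‖D n‖ ^ 2 := by
  induction N with
  | zero => simp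
  | succ N ih =>
    rw [sum_range_succ, sum_range_succ, ← ih, add_comm (∑ n ∈ range N, ε n • D n),
      sq, norm_add_sq_eq_norm_sq_add_norm_sq_of_inner_eq_zero (𝕜 := ℂ), norm_smul, hε]
    · ring
    · rw [inner_sum]
      refine sum_eq_zero fun m hm => ?_
      rw [inner_smul_left, inner_smul_right, hD m N (mem_range.1 hm)]; simp

lemma umd_hilbert {V : Type} [NormedAddCommGroup V] [InnerProductSpace ℂ V] [CompleteSpace V]
    {Ω : Type} {m : MeasurableSpace Ω} (μ : Measure Ω) [IsProbabilityMeasure μ]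
    (ℱ : Filtration ℕ m) (f : ℕ → Ω → V) (hf : Martingale f ℱ μ) (h2 : ∀ n, MemLp (f n) 2 μ)
    (ε : ℕ → ℂ) (hε : ∀ n, ‖ε n‖ = 1) (N : ℕ) :
    eLpNorm (fun w => ∑ n ∈ range N, ε n • (f (n + 1) w - f n w)) 2 μ =
      eLpNorm (fun w => ∑ n ∈ range N, (f (n + 1) w - f n w)) 2 μ := by
  have hd : ∀ n, MemLp (f (n + 1) - f n) 2 μ := fun n => (h2 (n + 1)).sub (h2 n)
  let D : ℕ → Lp V 2 μ := fun n => (hd n).toLp
  have hD : ∀ k n, k < n → inner ℂ (D n) (D k) = 0 := by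
    intro k n hkn
    have hmeas : AEStronglyMeasurable[ℱ n] (D k) μ := by
      refine AEStronglyMeasurable.congr ?_ (hd k).coeFn_toLp.symm
      exact (((hf.1 (k + 1)).mono (ℱ.mono hkn)).sub
        ((hf.1 k).mono (ℱ.mono hkn.le))).aestronglyMeasurable
    rw [← inner_condExpL2_eq_inner_fun (ℱ.le n) _ _ hmeas]
    have h0 : (condExpL2 V ℂ (ℱ.le n) (D n) : Lp V 2 μ) = 0 := by
      apply Lp.ext
      have h3 := (hd n).condExpL2_ae_eq_condExp (𝕜 := ℂ) (ℱ.le n)
      have h4 := condExp_sub (hf.integrable (n + 1)) (hf.integrable n) (ℱ n)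
      filter_upwards [h3, h4, hf.2 n (n + 1) (Nat.le_succ n), hf.2 n n le_rfl,
        Lp.coeFn_zero V 2 μ] with w a b c d e
      rw [e]
      refine a.trans (b.trans ?_)
      rw [Pi.sub_apply, c, d, sub_self]; rfl
    rw [h0, inner_zero_left]
  have key : ∀ η : ℕ → ℂ, eLpNorm (fun w => ∑ n ∈ range N, η n • (f (n + 1) w - f n w)) 2 μ =
      ‖∑ n ∈ range N, η n • D n‖ₑ := by
    intro η
    rw [Lp.enorm_def]
    refine eLpNorm_congr_ae ?_
    have h5 : ∀ᵐ w ∂μ, ∀ n, (η n • D n) w = η n • (f (n + 1) w - f n w) := by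
      rw [ae_all_iff]
      intro n
      filter_upwards [Lp.coeFn_smul (η n) (D n), (hd n).coeFn_toLp] with w a b
      rw [a, Pi.smul_apply, b]; rfl
    filter_upwards [Lp.coeFn_finsetSum (range N) fun n => η n • D n, h5] with w a b
    rw [a, Finset.sum_apply]
    exact sum_congr rfl fun n _ => (b n).symm
  have h1 := key fun _ => 1
  simp only [one_smul] at h1
  rw [key ε, h1, ← ofReal_norm_eq_enorm, ← ofReal_norm_eq_enorm]
  congr 1
  have h6 := norm_sum_orth D hD ε hε N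
  have h7 := norm_sum_orth D hD (fun _ => 1) (by simp) N
  simp only [one_smul] at h7
  exact (pow_left_inj₀ (norm_nonneg _) (norm_nonneg _) two_ne_zero).1 (h6.trans h7.symm)

lemma isUMD_of_equiv {X V : Type} [NormedAddCommGroup X] [NormedSpace ℂ X] [CompleteSpace X]
    [NormedAddCommGroup V] [InnerProductSpace ℂ V] [CompleteSpace V] (e : X ≃L[ℂ] V) :
    IsUMD X := by
  refine ⟨2, ‖(e.symm : V →L[ℂ] X)‖₊ * ‖(e : X →L[ℂ] V)‖₊, by norm_num, by norm_num, ?_⟩
  intro Ω m μ hμ ℱ f hf h2 ε hε N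
  let eR : X →L[ℝ] V := (e : X →L[ℂ] V).restrictScalars ℝ
  have hg : Martingale (fun n => eR ∘ f n) ℱ μ := by
    refine ⟨fun n => eR.continuous.comp_stronglyMeasurable (hf.1 n), fun i j hij => ?_⟩
    filter_upwards [eR.comp_condExp_comm (m := ℱ i) (hf.integrable j), hf.2 i j hij] with w a b
    rw [← a, Function.comp_apply, b]; rfl
  have h3 := umd_hilbert μ ℱ _ hg (fun n => eR.comp_memLp' (h2 n)) ε hε N
  calc eLpNorm (fun w => ∑ n ∈ range N, ε n • (f (n + 1) w - f n w)) 2 μ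
      ≤ ‖(e.symm : V →L[ℂ] X)‖₊ • eLpNorm (fun w => ∑ n ∈ range N, ε n •
          ((eR ∘ f (n + 1)) w - (eR ∘ f n) w)) 2 μ := by
        refine eLpNorm_le_nnreal_smul_eLpNorm_of_ae_le_mul (ae_of_all _ fun w => ?_) 2
        refine le_trans (le_of_eq ?_) ((e.symm : V →L[ℂ] X).le_opNNNorm _)
        congr 1
        simp [eR, map_sum]
    _ ≤ ‖(e.symm : V →L[ℂ] X)‖₊ • (‖(e : X →L[ℂ] V)‖₊ •
          eLpNorm (fun w => ∑ n ∈ range N, (f (n + 1) w - f n w)) 2 μ) := by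
        rw [h3]
        gcongr
        refine eLpNorm_le_nnreal_smul_eLpNorm_of_ae_le_mul (ae_of_all _ fun w => ?_) 2
        refine le_trans (le_of_eq ?_) ((e : X →L[ℂ] V).le_opNNNorm _)
        congr 1
        simp [eR, map_sum]
    _ = _ := by
        rw [smul_smul]; rfl

end Pool.Agent.P.MP_04e97d_an
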