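import Pool.Agent.P.MP_04e97d_an.Space
import Pool.Agent.P.MP_04e97d_an.UMD
import Pool.Agent.P.MP_04e97d_an.Sect

/-! The counterexample. -/

namespace Pool.Agent.P.MP_04e97d_an

open Set Complex Filter Topology
open scoped ComplexOrder

noncomputable section

lemma generates_of_taylor {X : Type} [NormedAddCommGroup X] [NormedSpace ℂ X] {A : X →L[ℂ] X}
    {T : ℝ → X →L[ℂ] X} (h0 : T 0 = 1) (hadd : ∀ s ≥ 0, ∀ t ≥ 0, T (s + t) = T s * T t)
    (hc : ∀ t ≥ 0, ‖T t‖ ≤ 1) {K : ℝ}
    (hK : ∀ t, 0 ≤ t → t ≤ 1 → ‖T t - 1 + (t : ℂ) • A‖ ≤ K * t ^ 2) : GeneratesNeg A T := by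
  have hK0 : 0 ≤ K := by simpa using (norm_nonneg _).trans (hK 1 zero_le_one le_rfl)
  refine ⟨h0, hadd, fun x => ?_, fun x => ?_⟩
  · have h1 : ∀ t, 0 ≤ t → t ≤ 1 → ‖T t - 1‖ ≤ (K + ‖A‖) * t := by
      intro t ht ht1
      have h2 := norm_sub_le (T t - 1 + (t : ℂ) • A) ((t : ℂ) • A)
      rw [add_sub_cancel_right, norm_smul, norm_real, Real.norm_eq_abs, abs_of_nonneg ht] at h2
      have h3 := hK t ht ht1
      have h4 : K * t ^ 2 ≤ K * t := by gcongr; nlinarith
      linarith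
    have h2 : ∀ s t, 0 ≤ s → s ≤ t → t - s ≤ 1 → ‖T t - T s‖ ≤ (K + ‖A‖) * (t - s) := by
      intro s t hs hst h
      have e : T t - T s = T s * (T (t - s) - 1) := by
        rw [mul_sub, ← hadd s hs _ (sub_nonneg.2 hst), mul_one, add_sub_cancel]
      rw [e]
      refine (norm_mul_le _ _).trans ?_
      have := h1 _ (sub_nonneg.2 hst) h
      calc _ ≤ 1 * ((K + ‖A‖) * (t - s)) := by gcongr; exact hc s hs
        _ = _ := one_mul _
    have h3 : ContinuousOn T (Ici 0) := by
      intro s hs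
      rw [ContinuousWithinAt, tendsto_iff_norm_sub_tendsto_zero]
      have hl : Tendsto (fun t => (K + ‖A‖) * |t - s|) (𝓝[Ici 0] s) (𝓝 0) := by
        have : Tendsto (fun t => (K + ‖A‖) * |t - s|) (𝓝 s) (𝓝 ((K + ‖A‖) * |s - s|)) :=
          Continuous.tendsto (by fun_prop) s
        simpa using this.mono_left nhdsWithin_le_nhds
      refine squeeze_zero' (Eventually.of_forall fun _ => norm_nonneg _) ?_ hl
      filter_upwards [self_mem_nhdsWithin,
        mem_nhdsWithin_of_mem_nhds (Icc_mem_nhds (sub_one_lt s) (lt_add_one s))] with t ht ht'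
      rcases le_total s t with h | h
      · rw [abs_of_nonneg (sub_nonneg.2 h)]; exact h2 s t hs h (by linarith [ht'.2])
      · rw [abs_of_nonpos (sub_nonpos.2 h), norm_sub_rev, neg_sub]
        exact h2 t s ht h (by linarith [ht'.1])
    exact h3.clm_apply continuousOn_const
  · rw [hasDerivWithinAt_iff_isLittleO]
    refine Asymptotics.IsBigO.trans_isLittleO (g := fun t : ℝ => t ^ 2) ?_ ?_
    · refine Asymptotics.IsBigO.of_bound (K * ‖x‖) ?_
      filter_upwards [self_mem_nhdsWithin,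
        mem_nhdsWithin_of_mem_nhds (Iic_mem_nhds (zero_lt_one' ℝ))] with t ht ht'
      have := (T t - 1 + (t : ℂ) • A).le_of_opNorm_le (hK t ht ht') x
      rw [add_apply, sub_apply, smul_apply, one_apply_eq_self, Complex.coe_smul] at this
      rw [h0, one_apply_eq_self, sub_zero, smul_neg, sub_neg_eq_add, Real.norm_eq_abs,
        abs_of_nonneg (sq_nonneg t)]
      linarith
    · simpa using (Asymptotics.isLittleO_pow_id (𝕜 := ℝ) one_lt_two).mono nhdsWithin_le_nhds

def cj (S : H →L[ℂ] H) : XX →L[ℂ] XX := (eH.symm : H →L[ℂ] XX) ∘L S ∘L (eH : XX →L[ℂ] H)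

lemma eH_cj (S : H →L[ℂ] H) (x : XX) : eH (cj S x) = S (eH x) := by simp [cj]

lemma norm_eH_le (x : XX) : ‖eH x‖ ≤ ‖x‖ := norm_le_NN _

lemma norm_le_eH (x : XX) : ‖x‖ ≤ 4 * ‖eH x‖ := NN_le_norm _

lemma norm_cj (S : H →L[ℂ] H) : ‖cj S‖ ≤ 4 * ‖S‖ := by
  refine ContinuousLinearMap.opNorm_le_bound _ (by positivity) fun x => ?_
  refine (norm_le_eH _).trans ?_
  rw [eH_cj, mul_assoc]
  gcongr
  exact S.le_opNorm_of_le (norm_eH_le x)

def AX : XX →L[ℂ] XX := cj AH

def TX (t : ℝ) : XX →L[ℂ] XX := cj (TH t)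

def vX (l : ℕ) : XX := eH.symm (vv l)

lemma TX_contr (t : ℝ) (ht : t ≥ 0) : ‖TX t‖ ≤ 1 := by
  refine ContinuousLinearMap.opNorm_le_bound _ zero_le_one fun x => ?_
  rw [one_mul, norm_XX', norm_XX', TX, eH_cj]
  exact NN_TH ht _

lemma generatesX : GeneratesNeg AX TX := by
  refine generates_of_taylor (K := 16) ?_ ?_ TX_contr ?_
  · ext1 x; apply eH.injective; rw [TX, eH_cj, TH_zero]; rfl
  · intro s hs t ht
    ext1 x; apply eH.injective
    simp only [TX, eH_cj, TH_add hs ht, mul_apply_eq_comp]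
  · intro t ht ht1
    have : TX t - 1 + (t : ℂ) • AX = cj (TH t - 1 + (t : ℂ) • AH) := by
      ext1 x; apply eH.injective
      simp only [TX, AX, eH_cj, add_apply, sub_apply, smul_apply, one_apply_eq_self, map_add,
        map_sub, map_smul]
    rw [this]
    have h1 := norm_cj (TH t - 1 + (t : ℂ) • AH)
    have h2 := TH_taylor ht ht1
    linarith

lemma AX_vX (l : ℕ) : AX (vX l) = (nu l : ℂ) • vX l := by
  apply eH.injective
  rw [AX, eH_cj, map_smul, vX, ContinuousLinearEquiv.apply_symm_apply, AH_vv]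

lemma dense_vX : Dense (Submodule.span ℂ (range vX) : Set XX) := by
  have h := eH.symm.surjective.denseRange.dense_image eH.symm.continuous dense_vv
  refine h.mono ?_
  rintro _ ⟨y, hy, rfl⟩
  refine Submodule.span_induction (p := fun y _ => eH.symm y ∈ Submodule.span ℂ (range vX))
    ?_ ?_ ?_ ?_ hy
  · rintro _ ⟨l, rfl⟩; exact Submodule.subset_span ⟨l, rfl⟩
  · simp
  · intro a b _ _ ha hb; rw [map_add]; exact Submodule.add_mem _ ha hb
  · intro c a _ ha; rw [map_smul]; exact Submodule.smul_mem _ _ ha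

lemma sectorialX : IsSectorial AX :=
  sectorial_of_contractive generatesX TX_contr dense_vX nu_pos AX_vX

lemma positiveX (t : ℝ) (ht : t ≥ 0) (a : EE) (ha : 0 ≤ a) :
    ∃ b : EE, 0 ≤ b ∧ TX t (iota a) = iota b := by
  rw [le_def, co_zero] at ha
  have h1 : ∀ i, 0 ≤ TH t (eH (iota a)) i := TH_nonneg ht fun i => by
    rw [iota_apply]; exact Complex.zero_le_real.2 (ha i)
  refine ⟨⟨TX t (iota a), fun i => ?_⟩, ?_, rfl⟩
  · rw [TX, eH_cj]; exact (Complex.nonneg_iff.1 (h1 i)).2.symm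
  · refine (le_def _ _).2 ?_
    rw [co_zero]
    intro i
    change 0 ≤ (eH (TX t (iota a)) i).re
    rw [TX, eH_cj]; exact (Complex.nonneg_iff.1 (h1 i)).1

lemma umdX : IsUMD XX := isUMD_of_equiv eH

/-- The graph of the sign-change multiplier on finite expansions. -/
def GG : Submodule ℂ (H × H) := Submodule.span ℂ (range fun l : ℕ => (vv l, (-1 : ℂ) ^ l • vv l))

lemma ev_even_mem (i : ℕ) (hi : Even i) : (ev i, ev i) ∈ GG := by
  refine Submodule.subset_span ⟨i, ?_⟩
  simp [hi.neg_one_pow, vv_even i hi]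

lemma ev_odd_mem (l : ℕ) (hl : Odd l) :
    (ev l, -ev l - ∑ i ∈ Finset.range l, (2 * Mx i l : ℂ) • ev i) ∈ GG := by
  have h1 : (vv l, (-1 : ℂ) ^ l • vv l) ∈ GG := Submodule.subset_span ⟨l, rfl⟩
  have h2 : ∑ i ∈ Finset.range l, (Mx i l : ℂ) • (ev i, ev i) ∈ GG := by
    refine Submodule.sum_mem _ fun i _ => ?_
    by_cases hi : Even i
    · exact Submodule.smul_mem _ _ (ev_even_mem i hi)
    · simp [Mx_of_odd _ _ hi]
  convert Submodule.sub_mem _ h1 h2 using 1
  refine Prod.ext ?_ ?_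
  · simp [vv, Prod.fst_sum]
  · simp only [hl.neg_one_pow, vv, Prod.snd_sub, Prod.snd_sum, Prod.smul_snd, neg_smul, one_smul,
      two_mul, add_smul, Finset.sum_add_distrib]
    abel

lemma sum_ev_apply (a : ℕ → ℂ) (l j : ℕ) :
    (∑ i ∈ Finset.range l, a i • ev i) j = if j < l then a j else 0 := by
  simp only [lp.coeFn_sum, Finset.sum_apply, lp.coeFn_smul, Pi.smul_apply, ev_apply, smul_eq_mul,
    mul_ite, mul_one, mul_zero, Finset.sum_ite_eq, Finset.mem_range]

lemma GG_unbounded (C : ℝ) : ∃ p ∈ GG, C * ‖p.1‖ < ‖p.2‖ := by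
  obtain ⟨L, hL⟩ := sum_mseq_unbounded (|C| + 1)
  have hL0 : 0 < L := by
    rcases Nat.eq_zero_or_pos L with rfl | h
    · simp only [Finset.range_zero, Finset.sum_empty] at hL
      linarith [abs_nonneg C]
    · exact h
  set s := ∑ n ∈ Finset.range L, mseq n with hs
  refine ⟨_, Submodule.sum_mem _ fun k (_ : k ∈ Finset.range (2 * L)) =>
    ev_odd_mem (2 * k + 1) (by simp), ?_⟩
  rw [Prod.fst_sum, Prod.snd_sum]
  simp only
  set x := ∑ k ∈ Finset.range (2 * L), ev (2 * k + 1) with hx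
  set y := ∑ k ∈ Finset.range (2 * L), (-ev (2 * k + 1) -
    ∑ i ∈ Finset.range (2 * k + 1), (2 * Mx i (2 * k + 1) : ℂ) • ev i) with hy
  have hinj : Function.Injective fun k : ℕ => 2 * k + 1 := fun a b h => by simpa using h
  have hinj2 : Function.Injective fun k : ℕ => 2 * k := fun a b h => by simpa using h
  have h1 : ‖x‖ ^ 2 = 2 * L := by
    have := norm_sum_ev (fun _ => 1) ((Finset.range (2 * L)).image fun k => 2 * k + 1)
    rw [Finset.sum_image hinj.injOn, Finset.sum_image hinj.injOn] at this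
    simpa using this
  have h2 : ∀ j < L, 2 * s ≤ ‖y (2 * j)‖ := by
    intro j hj
    have e : y (2 * j) = ((-(2 * ∑ k ∈ Finset.range (2 * L), Mx (2 * j) (2 * k + 1)) : ℝ) : ℂ) := by
      rw [hy, lp.coeFn_sum, Finset.sum_apply, Finset.mul_sum, ofReal_neg, ofReal_sum,
        ← Finset.sum_neg_distrib]
      refine Finset.sum_congr rfl fun k _ => ?_
      rw [lp.coeFn_sub, Pi.sub_apply, sum_ev_apply, lp.coeFn_neg, Pi.neg_apply, ev_apply,
        if_neg (by omega)]
      split_ifs with h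
      · simp
      · have : Mx (2 * j) (2 * k + 1) = 0 := by unfold Mx; rw [if_neg (by omega)]
        simp [this]
    rw [e, norm_real, Real.norm_eq_abs, abs_neg]
    refine le_trans ?_ (le_abs_self _)
    gcongr
    have hinj3 : Function.Injective fun n : ℕ => j + n := fun a b h => by simpa using h
    calc s = ∑ k ∈ (Finset.range L).image fun n => j + n, Mx (2 * j) (2 * k + 1) := by
          rw [Finset.sum_image hinj3.injOn]
          refine Finset.sum_congr rfl fun n _ => ?_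
          unfold Mx
          rw [if_pos ⟨by simp, by simp, by omega⟩]
          congr 1; omega
      _ ≤ _ := by
          refine Finset.sum_le_sum_of_subset_of_nonneg ?_ fun _ _ _ => Mx_nonneg _ _
          intro k hk
          obtain ⟨n, hn, rfl⟩ := Finset.mem_image.1 hk
          have := Finset.mem_range.1 hn
          exact Finset.mem_range.2 (by omega)
  have hs1 : 0 ≤ s := by linarith [abs_nonneg C]
  have h3 : L * (2 * s) ^ 2 ≤ ‖y‖ ^ 2 := by
    have := lp.sum_rpow_le_norm_rpow (p := 2) (by simp) y ((Finset.range L).image fun k => 2 * k)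
    simp only [ENNReal.toReal_ofNat, Real.rpow_ofNat] at this
    rw [Finset.sum_image hinj2.injOn] at this
    refine le_trans ?_ this
    calc (L : ℝ) * (2 * s) ^ 2 = ∑ _j ∈ Finset.range L, (2 * s) ^ 2 := by simp
      _ ≤ _ := Finset.sum_le_sum fun j hj => by
          have := h2 j (Finset.mem_range.1 hj)
          gcongr
  refine lt_of_le_of_lt (mul_le_mul_of_nonneg_right (le_abs_self C) (norm_nonneg _)) ?_
  refine lt_of_pow_lt_pow_left₀ 2 (norm_nonneg _) (lt_of_lt_of_le ?_ h3)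
  rw [mul_pow, h1]
  have hL' : (0 : ℝ) < L := by exact_mod_cast hL0
  have h4 : |C| ^ 2 < s ^ 2 := by gcongr; linarith
  nlinarith [sq_nonneg s]

lemma GG_unboundedX (C : ℝ) : ∃ p ∈ GG, C * ‖eH.symm p.1‖ < ‖eH.symm p.2‖ := by
  obtain ⟨p, hp, h⟩ := GG_unbounded (|C| * 4)
  refine ⟨p, hp, ?_⟩
  have h1 := norm_le_eH (eH.symm p.1)
  have h2 := norm_eH_le (eH.symm p.2)
  rw [ContinuousLinearEquiv.apply_symm_apply] at h1 h2
  calc C * ‖eH.symm p.1‖ ≤ |C| * (4 * ‖p.1‖) := by gcongr; exact le_abs_self C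
    _ = |C| * 4 * ‖p.1‖ := by ring
    _ < _ := h.trans_le h2

end

end Pool.Agent.P.MP_04e97d_an
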