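import Pool.Agent.P.MP_04e97d_an.Seq

/-! Multipliers of a conditional basis of the sequence space. -/

namespace Pool.Agent.P.MP_04e97d_an

open Finset

noncomputable section

abbrev H : Type := lp (fun _ : ℕ => ℂ) 2

def ev (l : ℕ) : H := lp.single 2 l 1

def col (c : ℕ → ℝ) (l : ℕ) : H := ∑ i ∈ range l, ((Mx i l * (c l - c i) : ℝ) : ℂ) • ev i

def IsOp (c : ℕ → ℝ) (S : H →L[ℂ] H) : Prop := ∀ l, S (ev l) = (c l : ℂ) • ev l + col c l

lemma ev_apply (l i : ℕ) : ev l i = if i = l then 1 else 0 := by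
  simp [ev, lp.single_apply, Pi.single_apply]

lemma smul_ev (a : ℂ) (l : ℕ) : a • ev l = lp.single 2 l a := by
  rw [ev, ← lp.single_smul]; simp

lemma norm_sum_ev (a : ℕ → ℂ) (s : Finset ℕ) :
    ‖∑ i ∈ s, a i • ev i‖ ^ 2 = ∑ i ∈ s, ‖a i‖ ^ 2 := by
  have := lp.norm_sum_single (E := fun _ : ℕ => ℂ) (p := 2) (by simp) a s
  simp only [ENNReal.toReal_ofNat, Real.rpow_ofNat] at this
  simpa only [smul_ev] using this

lemma hasSum_ev (x : H) : HasSum (fun l => x l • ev l) x := by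
  simpa only [smul_ev] using lp.hasSum_single (by simp) x

lemma ext_ev {F : Type} [NormedAddCommGroup F] [NormedSpace ℂ F] {S S' : H →L[ℂ] F}
    (h : ∀ l, S (ev l) = S' (ev l)) : S = S' := by
  ext1 x
  have h1 := (hasSum_ev x).mapL S
  have h2 := (hasSum_ev x).mapL S'
  simp only [map_smul, h] at h1 h2
  exact h1.unique h2

lemma exists_op (c : ℕ → ℝ) (K : ℝ) (hc : Monotone c ∨ Antitone c) (hK : ∀ n, |c n| ≤ K) :
    ∃ S, IsOp c S ∧ ‖S‖ ≤ 4 * K := by
  have hK0 : 0 ≤ K := (abs_nonneg _).trans (hK 0)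
  have hs : ∀ s : Finset ℕ, ∑ l ∈ s, ‖col c l‖ ^ (2 : ENNReal).toReal ≤
      (3 * K) ^ (2 : ENNReal).toReal := by
    intro s
    obtain ⟨L, hL⟩ := s.exists_nat_subset_range
    simp only [ENNReal.toReal_ofNat, Real.rpow_ofNat]
    calc ∑ l ∈ s, ‖col c l‖ ^ 2 ≤ ∑ l ∈ range L, ‖col c l‖ ^ 2 :=
          sum_le_sum_of_subset_of_nonneg hL fun _ _ _ => by positivity
      _ = ∑ l ∈ range L, ∑ i ∈ range l, (Mx i l * (c l - c i)) ^ 2 := by
          refine sum_congr rfl fun l _ => ?_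
          rw [col, norm_sum_ev]
          refine sum_congr rfl fun i _ => ?_
          rw [Complex.norm_real, Real.norm_eq_abs, sq_abs]
      _ ≤ 8 * K ^ 2 := hs_bound c K hc hK L
      _ ≤ (3 * K) ^ 2 := by nlinarith [sq_nonneg K]
  let cl : lp (fun _ : ℕ => H) 2 := ⟨col c, memℓp_gen' hs⟩
  have hcl : ‖cl‖ ≤ 3 * K := lp.norm_le_of_forall_sum_le (by simp) (by positivity) hs
  let B : ℕ → H →L[ℂ] ℂ →L[ℂ] H := fun _ => (ContinuousLinearMap.lsmul ℂ ℂ).flip
  have hB : ∀ i, ‖B i‖ ≤ (1 : NNReal) := fun i => by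
    simp only [B, ContinuousLinearMap.opNorm_flip]
    exact ContinuousLinearMap.opNorm_lsmul_le
  let D : ℕ → ℂ →L[ℂ] ℂ := fun i => (c i : ℂ) • ContinuousLinearMap.id ℂ ℂ
  have hD : ∀ i, ‖D i‖ ≤ K := fun i => by
    simp only [D, norm_smul, ContinuousLinearMap.norm_id, mul_one, Complex.norm_real,
      Real.norm_eq_abs, hK]
  refine ⟨lp.mapCLM 2 D hK0 hD + lp.dualPairing 2 2 B hB cl, fun l => ?_, ?_⟩
  · rw [ContinuousLinearMap.add_apply]
    congr 1
    · ext i
      simp only [lp.mapCLM_apply_coe, D, lp.coeFn_smul, Pi.smul_apply, ev_apply]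
      split_ifs with h <;> simp [h]
    · rw [lp.dualPairing_apply, tsum_eq_single l]
      · simp [B, cl, ev_apply]
      · intro i hi
        simp [B, ev_apply, hi]
  · refine (norm_add_le _ _).trans ?_
    have h1 := lp.norm_mapCLM_le 2 D hK0 hD
    have h2 := (lp.dualPairing 2 2 B hB).le_of_opNorm_le_of_le (lp.norm_dualPairing B hB) hcl
    simp only [NNReal.coe_one, one_mul] at h2
    linarith

open Classical in
/-- The multiplier operator. -/
def mul (c : ℕ → ℝ) : H →L[ℂ] H := if h : ∃ S, IsOp c S then h.choose else 0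

lemma IsOp.unique {c : ℕ → ℝ} {S S' : H →L[ℂ] H} (h : IsOp c S) (h' : IsOp c S') : S = S' :=
  ext_ev fun l => by rw [h l, h' l]

lemma mul_spec (c : ℕ → ℝ) (K : ℝ) (hc : Monotone c ∨ Antitone c) (hK : ∀ n, |c n| ≤ K) :
    IsOp c (mul c) ∧ ‖mul c‖ ≤ 4 * K := by
  obtain ⟨S, h1, h2⟩ := exists_op c K hc hK
  have h : ∃ S, IsOp c S := ⟨S, h1⟩
  have : mul c = S := by rw [mul, dif_pos h]; exact h.choose_spec.unique h1
  rw [this]; exact ⟨h1, h2⟩

/-- The conditional basis. -/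
def vv (l : ℕ) : H := ev l + ∑ i ∈ range l, (Mx i l : ℂ) • ev i

lemma vv_even (l : ℕ) (h : Even l) : vv l = ev l := by
  simp [vv, Mx_of_even _ _ h]

lemma col_even (c : ℕ → ℝ) (l : ℕ) (h : Even l) : col c l = 0 := by
  simp [col, Mx_of_even _ _ h]

lemma IsOp.eigen {c : ℕ → ℝ} {S : H →L[ℂ] H} (h : IsOp c S) (l : ℕ) :
    S (vv l) = (c l : ℂ) • vv l := by
  have h1 : ∀ i, S ((Mx i l : ℂ) • ev i) = ((Mx i l * c i : ℝ) : ℂ) • ev i := by
    intro i
    by_cases hi : Even i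
    · rw [map_smul, h i, col_even _ _ hi, add_zero, smul_smul]; push_cast; rfl
    · simp [Mx_of_odd _ _ hi]
  rw [vv, map_add, map_sum, h l, col, smul_add, add_assoc, ← sum_add_distrib, smul_sum]
  congr 1
  refine sum_congr rfl fun i _ => ?_
  rw [h1, ← add_smul, smul_smul]; congr 1; push_cast; ring

lemma ev_eq (l : ℕ) : ev l = vv l - ∑ i ∈ range l, (Mx i l : ℂ) • vv i := by
  rw [vv, add_sub_assoc, ← sum_sub_distrib, sum_eq_zero, add_zero]
  intro i _
  by_cases hi : Even i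
  · rw [vv_even _ hi, sub_self]
  · simp [Mx_of_odd _ _ hi]

lemma ext_vv {F : Type} [NormedAddCommGroup F] [NormedSpace ℂ F] {S S' : H →L[ℂ] F}
    (h : ∀ l, S (vv l) = S' (vv l)) : S = S' :=
  ext_ev fun l => by rw [ev_eq]; simp only [map_sub, map_sum, map_smul, h]

lemma dense_vv : Dense (Submodule.span ℂ (Set.range vv) : Set H) := by
  intro x
  refine mem_closure_of_tendsto (hasSum_ev x) (Filter.Eventually.of_forall fun s => ?_)
  refine Submodule.sum_mem _ fun l _ => Submodule.smul_mem _ _ ?_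
  rw [ev_eq]
  exact Submodule.sub_mem _ (Submodule.subset_span ⟨l, rfl⟩)
    (Submodule.sum_mem _ fun i _ => Submodule.smul_mem _ _ (Submodule.subset_span ⟨i, rfl⟩))

/-- The eigenvalues. -/
def nu (n : ℕ) : ℝ := (1 / 2) ^ n

lemma nu_pos (n : ℕ) : 0 < nu n := by unfold nu; positivity

lemma nu_le_one (n : ℕ) : nu n ≤ 1 := pow_le_one₀ (by norm_num) (by norm_num)

lemma nu_anti : Antitone nu := fun _ _ h =>
  pow_le_pow_of_le_one (by norm_num) (by norm_num) h

def AH : H →L[ℂ] H := mul nu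

def TH (t : ℝ) : H →L[ℂ] H := mul fun n => Real.exp (-(t * nu n))

lemma AH_vv (l : ℕ) : AH (vv l) = (nu l : ℂ) • vv l :=
  (mul_spec nu 1 (Or.inr nu_anti) fun n => by
    rw [abs_of_pos (nu_pos n)]; exact nu_le_one n).1.eigen l

lemma exp_mono {t : ℝ} (ht : 0 ≤ t) : Monotone fun n => Real.exp (-(t * nu n)) := by
  intro a b h
  have := nu_anti h
  simp only
  gcongr

lemma TH_spec {t : ℝ} (ht : 0 ≤ t) :
    IsOp (fun n => Real.exp (-(t * nu n))) (TH t) ∧ ‖TH t‖ ≤ 4 * 1 :=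
  mul_spec _ 1 (Or.inl (exp_mono ht)) fun n => by
    rw [abs_of_pos (Real.exp_pos _), Real.exp_le_one_iff]
    have := nu_pos n
    have := mul_nonneg ht this.le
    linarith

lemma TH_vv {t : ℝ} (ht : 0 ≤ t) (l : ℕ) :
    TH t (vv l) = (Real.exp (-(t * nu l)) : ℂ) • vv l := (TH_spec ht).1.eigen l

lemma TH_norm {t : ℝ} (ht : 0 ≤ t) : ‖TH t‖ ≤ 4 := by simpa using (TH_spec ht).2

lemma TH_zero : TH 0 = 1 := ext_vv fun l => by simp [TH_vv le_rfl]

lemma TH_add {s t : ℝ} (hs : 0 ≤ s) (ht : 0 ≤ t) : TH (s + t) = TH s * TH t :=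
  ext_vv fun l => by
    rw [ContinuousLinearMap.mul_apply, TH_vv ht, map_smul, TH_vv hs, TH_vv (add_nonneg hs ht),
      smul_smul, ← Complex.ofReal_mul, ← Real.exp_add]
    congr 3; ring

lemma TH_taylor {t : ℝ} (ht : 0 ≤ t) (ht1 : t ≤ 1) :
    ‖TH t - 1 + (t : ℂ) • AH‖ ≤ 4 * t ^ 2 := by
  have hg : MonotoneOn (fun y : ℝ => Real.exp (-y) - 1 + y) (Set.Ici 0) := by
    intro a ha b _ hab
    simp only
    have h1 : Real.exp (-a) ≤ 1 := by rw [Real.exp_le_one_iff]; simpa using ha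
    have h2 : Real.exp (-b) = Real.exp (-a) * Real.exp (-(b - a)) := by
      rw [← Real.exp_add]; congr 1; ring
    have h3 := Real.add_one_le_exp (-(b - a))
    have h4 := Real.exp_pos (-a)
    have h5 : Real.exp (-a) * (-(b - a) + 1) ≤ Real.exp (-b) := by rw [h2]; gcongr
    nlinarith
  have hx : ∀ n, 0 ≤ t * nu n := fun n => mul_nonneg ht (nu_pos n).le
  have hx1 : ∀ n, t * nu n ≤ t := fun n => mul_le_of_le_one_right ht (nu_le_one n)
  have h := mul_spec (fun n => Real.exp (-(t * nu n)) - 1 + t * nu n) (t ^ 2)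
    (Or.inr fun a b h => hg (hx b) (hx a) (mul_le_mul_of_nonneg_left (nu_anti h) ht)) fun n => by
      have h1 := Real.abs_exp_sub_one_sub_id_le (x := -(t * nu n))
        (by rw [abs_neg, abs_of_nonneg (hx n)]; exact (hx1 n).trans ht1)
      rw [sub_neg_eq_add, neg_sq] at h1
      refine h1.trans ?_
      have := hx n; have := hx1 n
      gcongr
  refine le_trans (le_of_eq ?_) h.2
  congr 1
  refine ext_vv fun l => ?_
  rw [h.1.eigen]
  simp only [ContinuousLinearMap.add_apply, ContinuousLinearMap.sub_apply,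
    ContinuousLinearMap.smul_apply, ContinuousLinearMap.one_apply, TH_vv ht, AH_vv, smul_smul]
  push_cast
  module

lemma TH_entry {t : ℝ} (ht : 0 ≤ t) (i l : ℕ) : ∃ r : ℝ, 0 ≤ r ∧ TH t (ev l) i = r := by
  rw [(TH_spec ht).1 l]
  refine ⟨(if i = l then Real.exp (-(t * nu l)) else 0) +
    (if i < l then Mx i l * (Real.exp (-(t * nu l)) - Real.exp (-(t * nu i))) else 0), ?_, ?_⟩
  · apply add_nonneg
    · split_ifs
      · exact (Real.exp_pos _).le
      · exact le_rfl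
    · split_ifs with h
      · exact mul_nonneg (Mx_nonneg _ _) (sub_nonneg.2 (exp_mono ht h.le))
      · exact le_rfl
  · simp only [lp.coeFn_add, lp.coeFn_smul, Pi.add_apply, Pi.smul_apply, col, lp.coeFn_sum,
      Finset.sum_apply, ev_apply, smul_eq_mul, mul_ite, mul_one, mul_zero, sum_ite_eq, mem_range]
    split_ifs <;> simp

end

end Pool.Agent.P.MP_04e97d_an
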