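import Mathlib

/-! The scalar sequences of the construction. -/

namespace Pool.Agent.P.MP_04e97d_an

open Finset

noncomputable section

def bseq : ℕ → ℝ
  | 0 => 1
  | n + 1 => bseq n + 1 / (((n : ℝ) + 1) * bseq n * (bseq n + 1))

def mseq (n : ℕ) : ℝ := 1 / (((n : ℝ) + 1) * bseq n * (bseq n + 1))

lemma bseq_ge (n : ℕ) : 1 ≤ bseq n := by
  induction n with
  | zero => simp [bseq]
  | succ n ih =>
    have : 0 ≤ 1 / (((n : ℝ) + 1) * bseq n * (bseq n + 1)) := by positivity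
    simp only [bseq]; linarith

lemma mseq_pos (n : ℕ) : 0 < mseq n := by
  have := bseq_ge n
  unfold mseq; positivity

lemma bseq_succ (n : ℕ) : bseq (n + 1) = bseq n + mseq n := rfl

lemma mseq_le_one (n : ℕ) : mseq n ≤ 1 := by
  have := bseq_ge n
  unfold mseq
  rw [div_le_one (by positivity)]
  have h1 : (1 : ℝ) ≤ (n : ℝ) + 1 := by have : (0 : ℝ) ≤ n := Nat.cast_nonneg n; linarith
  have h2 : (1 : ℝ) ≤ bseq n + 1 := by linarith
  calc (1 : ℝ) = 1 * 1 * 1 := by ring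
    _ ≤ _ := by gcongr

lemma mseq_sq_le (n : ℕ) : ((n : ℝ) + 1) * mseq n ^ 2 ≤ 1 / bseq n - 1 / bseq (n + 1) := by
  have hb := bseq_ge n
  have hm := mseq_pos n
  have hm1 := mseq_le_one n
  have h1 : ((n : ℝ) + 1) * mseq n = 1 / (bseq n * (bseq n + 1)) := by
    unfold mseq; field_simp
  have h2 : 1 / bseq n - 1 / bseq (n + 1) = mseq n * (1 / (bseq n * (bseq n + mseq n))) := by
    rw [bseq_succ]; field_simp; ring
  rw [h2, sq, ← mul_assoc, h1, mul_comm]
  gcongr

lemma sum_mseq_sq_le (N : ℕ) : ∑ n ∈ range N, ((n : ℝ) + 1) * mseq n ^ 2 ≤ 1 := by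
  have : ∑ n ∈ range N, ((n : ℝ) + 1) * mseq n ^ 2 ≤ 1 - 1 / bseq N := by
    induction N with
    | zero => simp [bseq]
    | succ n ih => rw [sum_range_succ]; have := mseq_sq_le n; linarith
  have h := bseq_ge N
  have : 0 ≤ 1 / bseq N := by positivity
  linarith

lemma bseq_eq (N : ℕ) : bseq N = 1 + ∑ n ∈ range N, mseq n := by
  induction N with
  | zero => simp [bseq]
  | succ n ih => rw [bseq_succ, sum_range_succ, ih]; ring

lemma sum_mseq_unbounded (B : ℝ) : ∃ L, B ≤ ∑ n ∈ range L, mseq n := by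
  by_contra h
  push Not at h
  have hB : 0 < B := by simpa using h 0
  have hb : ∀ n, bseq n ≤ B + 1 := fun n => by rw [bseq_eq]; have := h n; linarith
  have hm : ∀ n : ℕ, 1 / ((n : ℝ) + 1) * (1 / ((B + 1) * (B + 2))) ≤ mseq n := fun n => by
    have h1 := bseq_ge n
    have h2 := hb n
    unfold mseq
    rw [one_div_mul_one_div, mul_assoc, show B + 2 = B + 1 + 1 by ring]
    gcongr
  have ht := Real.tendsto_sum_range_one_div_nat_succ_atTop
  have := (ht.eventually_ge_atTop (B * ((B + 1) * (B + 2)))).exists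
  obtain ⟨L, hL⟩ := this
  have h3 : (∑ n ∈ range L, 1 / ((n : ℝ) + 1)) * (1 / ((B + 1) * (B + 2))) ≤
      ∑ n ∈ range L, mseq n := by
    rw [sum_mul]; exact sum_le_sum fun n _ => hm n
  have h4 : B ≤ (∑ n ∈ range L, 1 / ((n : ℝ) + 1)) * (1 / ((B + 1) * (B + 2))) := by
    rw [mul_one_div, le_div_iff₀ (by positivity)]; exact hL
  have := h L
  linarith

/-- The strictly upper triangular matrix of the basis change. -/
def Mx (i l : ℕ) : ℝ := if Even i ∧ Odd l ∧ i < l then mseq ((l - i) / 2) else 0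

lemma Mx_nonneg (i l : ℕ) : 0 ≤ Mx i l := by
  unfold Mx; split_ifs
  · exact (mseq_pos _).le
  · exact le_rfl

lemma Mx_of_even (i l : ℕ) (h : Even l) : Mx i l = 0 := by
  unfold Mx; rw [if_neg]; rintro ⟨_, h2, _⟩; exact (Nat.not_odd_iff_even.2 h) h2

lemma Mx_of_odd (i l : ℕ) (h : ¬ Even i) : Mx i l = 0 := by
  unfold Mx; rw [if_neg]; rintro ⟨h2, _, _⟩; exact h h2

/-- Weight on the `n`-th diagonal. -/
def wd (n : ℕ) : ℝ := if Odd n then mseq (n / 2) else 0

lemma Mx_le_wd (i n : ℕ) : Mx i (i + n) ≤ wd n := by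
  unfold Mx wd
  by_cases h : Even i ∧ Odd (i + n) ∧ i < i + n
  · rw [if_pos h, if_pos, Nat.add_sub_cancel_left]
    obtain ⟨h1, h2, _⟩ := h
    rcases Nat.even_or_odd n with h3 | h3
    · exact absurd (Even.add h1 h3) (Nat.not_even_iff_odd.2 h2)
    · exact h3
  · rw [if_neg h]; split_ifs
    · exact (mseq_pos _).le
    · exact le_rfl

lemma sum_wd_le (N : ℕ) : ∑ n ∈ range N, (n : ℝ) * wd n ^ 2 ≤ 2 := by
  have key : ∀ k, ∑ n ∈ range (2 * k), (n : ℝ) * wd n ^ 2 ≤
      2 * ∑ n ∈ range k, ((n : ℝ) + 1) * mseq n ^ 2 := by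
    intro k
    induction k with
    | zero => simp
    | succ k ih =>
      rw [show 2 * (k + 1) = 2 * k + 1 + 1 by ring, sum_range_succ, sum_range_succ,
        sum_range_succ]
      have h1 : wd (2 * k) = 0 := by unfold wd; rw [if_neg]; simp
      have h2 : wd (2 * k + 1) = mseq k := by
        unfold wd; rw [if_pos (by simp)]; congr 1; omega
      rw [h1, h2]
      push_cast
      nlinarith [sq_nonneg (mseq k)]
  calc ∑ n ∈ range N, (n : ℝ) * wd n ^ 2 ≤ ∑ n ∈ range (2 * N), (n : ℝ) * wd n ^ 2 := by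
        apply sum_le_sum_of_subset_of_nonneg (range_mono (by omega))
        intro i _ _; positivity
    _ ≤ _ := key N
    _ ≤ 2 := by have := sum_mseq_sq_le N; linarith

lemma sum_shift_sub (c : ℕ → ℝ) (n J : ℕ) :
    ∑ i ∈ range J, (c (i + n) - c i) = ∑ i ∈ range n, (c (J + i) - c i) := by
  rw [sum_sub_distrib, sum_sub_distrib]
  have h1 := sum_range_add c n J
  have h2 := sum_range_add c J n
  rw [add_comm n J] at h1
  have h3 : ∑ i ∈ range J, c (i + n) = ∑ i ∈ range J, c (n + i) :=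
    sum_congr rfl fun i _ => by rw [add_comm]
  linarith

lemma sum_shift_sq_le (c : ℕ → ℝ) (K : ℝ) (hc : Monotone c) (hK : ∀ n, |c n| ≤ K) (n J : ℕ) :
    ∑ i ∈ range J, (c (i + n) - c i) ^ 2 ≤ 4 * K ^ 2 * n := by
  have hK0 : 0 ≤ K := (abs_nonneg _).trans (hK 0)
  have hd : ∀ a b, c a - c b ≤ 2 * K := fun a b => by
    have := abs_le.1 (hK a); have := abs_le.1 (hK b); linarith
  calc ∑ i ∈ range J, (c (i + n) - c i) ^ 2 ≤ ∑ i ∈ range J, 2 * K * (c (i + n) - c i) := by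
        apply sum_le_sum; intro i _
        have h0 : 0 ≤ c (i + n) - c i := sub_nonneg.2 (hc (Nat.le_add_right _ _))
        rw [sq]; gcongr; exact hd _ _
    _ = 2 * K * ∑ i ∈ range n, (c (J + i) - c i) := by rw [← mul_sum, sum_shift_sub]
    _ ≤ 2 * K * ∑ _i ∈ range n, 2 * K := by gcongr with i; exact hd _ _
    _ = _ := by simp; ring

lemma hs_bound (c : ℕ → ℝ) (K : ℝ) (hc : Monotone c ∨ Antitone c) (hK : ∀ n, |c n| ≤ K) (L : ℕ) :
    ∑ l ∈ range L, ∑ i ∈ range l, (Mx i l * (c l - c i)) ^ 2 ≤ 8 * K ^ 2 := by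
  have hsq : ∀ n J, ∑ i ∈ range J, (c (i + n) - c i) ^ 2 ≤ 4 * K ^ 2 * n := by
    intro n J
    rcases hc with hc | hc
    · exact sum_shift_sq_le c K hc hK n J
    · have := sum_shift_sq_le (fun n => - c n) K hc.neg (by simpa using hK) n J
      refine le_trans (le_of_eq ?_) this
      exact sum_congr rfl fun i _ => by ring
  have h1 : ∑ l ∈ range L, ∑ i ∈ range l, (Mx i l * (c l - c i)) ^ 2 ≤
      ∑ l ∈ range L, ∑ n ∈ range (l + 1),
        (fun n i => wd n ^ 2 * (c (i + n) - c i) ^ 2) n (l - n) := by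
    apply sum_le_sum; intro l _
    rw [← sum_range_reflect _ (l + 1), sum_range_succ]
    have : 0 ≤ (fun n i => wd n ^ 2 * (c (i + n) - c i) ^ 2) (l + 1 - 1 - l)
      (l - (l + 1 - 1 - l)) := by positivity
    refine le_trans ?_ (le_add_of_nonneg_right this)
    apply sum_le_sum; intro i hi
    have hi := mem_range.1 hi
    obtain ⟨n, rfl⟩ : ∃ n, l = i + n := ⟨l - i, by omega⟩
    have e1 : i + n + 1 - 1 - i = n := by omega
    have e2 : i + n - n = i := by omega
    simp only [e1, e2, mul_pow]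
    have := Mx_le_wd i n
    have := Mx_nonneg i (i + n)
    gcongr
  refine (h1.trans_eq (sum_range_diag_flip L
    (fun n i => wd n ^ 2 * (c (i + n) - c i) ^ 2))).trans ?_
  calc ∑ n ∈ range L, ∑ i ∈ range (L - n), wd n ^ 2 * (c (i + n) - c i) ^ 2
      ≤ ∑ n ∈ range L, 4 * K ^ 2 * ((n : ℝ) * wd n ^ 2) := by
        apply sum_le_sum; intro n _
        rw [← mul_sum]
        have := hsq n (L - n)
        calc _ ≤ wd n ^ 2 * (4 * K ^ 2 * n) := by gcongr
          _ = _ := by ring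
    _ = 4 * K ^ 2 * ∑ n ∈ range L, (n : ℝ) * wd n ^ 2 := by rw [mul_sum]
    _ ≤ 4 * K ^ 2 * 2 := by gcongr; exact sum_wd_le L
    _ = _ := by ring

end

end Pool.Agent.P.MP_04e97d_an
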