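import Pool.Agent.P.MP_04e97d_an.Op
import Pool.Agent.P.MP_04e97d_an.Defs

/-! The renormed sequence lattice. -/

namespace Pool.Agent.P.MP_04e97d_an

open Finset
open scoped ComplexOrder

noncomputable section

def absH (x : H) : H :=
  ⟨fun i => (‖x i‖ : ℂ), (lp.memℓp x).mono' fun i => by simp⟩

lemma absH_apply (x : H) (i : ℕ) : absH x i = (‖x i‖ : ℂ) := rfl

lemma norm_absH (x : H) : ‖absH x‖ = ‖x‖ :=
  le_antisymm (lp.norm_mono (by simp) fun i => by simp [absH_apply])
    (lp.norm_mono (by simp) fun i => by simp [absH_apply])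

lemma hasSum_entry (S : H →L[ℂ] H) (x : H) (i : ℕ) :
    HasSum (fun l => x l * S (ev l) i) (S x i) := by
  have := ((hasSum_ev x).mapL S).mapL (lp.evalCLM ℂ (fun _ : ℕ => ℂ) 2 i)
  simp only [map_smul, smul_eq_mul] at this
  exact this

lemma TH_nonneg {t : ℝ} (ht : 0 ≤ t) {x : H} (hx : ∀ i, 0 ≤ x i) (i : ℕ) : 0 ≤ TH t x i := by
  refine (hasSum_entry (TH t) x i).nonneg fun l => mul_nonneg (hx l) ?_
  obtain ⟨r, hr, h⟩ := TH_entry ht i l
  rw [h]; exact Complex.zero_le_real.2 hr

lemma TH_dom {t : ℝ} (ht : 0 ≤ t) {x y : H} (h : ∀ i, ‖x i‖ ≤ ‖y i‖) (i : ℕ) :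
    ‖TH t x i‖ ≤ ‖TH t (absH y) i‖ := by
  have h1 := hasSum_entry (TH t) x i
  have h2 := Complex.hasSum_re (hasSum_entry (TH t) (absH y) i)
  rw [← h1.tsum_eq]
  refine (tsum_of_norm_bounded h2 fun l => ?_).trans
    ((le_abs_self _).trans (Complex.abs_re_le_norm _))
  obtain ⟨r, hr, h3⟩ := TH_entry ht i l
  rw [h3, absH_apply, ← Complex.ofReal_mul, Complex.ofReal_re, norm_mul, Complex.norm_real,
    Real.norm_eq_abs, abs_of_nonneg hr]
  exact mul_le_mul_of_nonneg_right (h l) hr

lemma absH_of_nonneg {x : H} (hx : ∀ i, 0 ≤ x i) : absH x = x := by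
  ext i
  rw [absH_apply]
  exact Complex.norm_of_nonneg' (hx i)

lemma absH_nonneg (x : H) (i : ℕ) : 0 ≤ absH x i := by
  rw [absH_apply]; exact Complex.zero_le_real.2 (norm_nonneg _)

/-- The new norm. -/
def NN (x : H) : ℝ := ⨆ t : NNReal, ‖TH t (absH x)‖

lemma NN_bdd (x : H) : BddAbove (Set.range fun t : NNReal => ‖TH t (absH x)‖) := by
  refine ⟨4 * ‖x‖, ?_⟩
  rintro _ ⟨t, rfl⟩
  rw [← norm_absH x]
  exact (TH t).le_of_opNorm_le (TH_norm t.2) _

lemma le_NN {t : ℝ} (ht : 0 ≤ t) (x : H) : ‖TH t (absH x)‖ ≤ NN x :=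
  le_ciSup (NN_bdd x) ⟨t, ht⟩

lemma NN_le {x : H} {C : ℝ} (h : ∀ t, 0 ≤ t → ‖TH t (absH x)‖ ≤ C) : NN x ≤ C :=
  ciSup_le fun t => h t t.2

lemma norm_le_NN (x : H) : ‖x‖ ≤ NN x := by
  have := le_NN le_rfl x
  rwa [TH_zero, one_apply_eq_self, norm_absH] at this

lemma NN_le_norm (x : H) : NN x ≤ 4 * ‖x‖ := NN_le fun t ht => by
  rw [← norm_absH x]
  exact (TH t).le_of_opNorm_le (TH_norm ht) _

lemma NN_mono {x y : H} (h : ∀ i, ‖x i‖ ≤ ‖y i‖) : NN x ≤ NN y := NN_le fun t ht =>
  (lp.norm_mono (by simp) (TH_dom ht (x := absH x) (y := y) fun i => by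
    simpa [absH_apply] using h i)).trans (le_NN ht y)

lemma NN_add (x y : H) : NN (x + y) ≤ NN x + NN y := NN_le fun t ht => by
  have h1 : ∀ i, 0 ≤ (absH x + absH y) i := fun i => add_nonneg (absH_nonneg x i) (absH_nonneg y i)
  have h2 : ‖TH t (absH (x + y))‖ ≤ ‖TH t (absH (absH x + absH y))‖ := by
    refine lp.norm_mono (by simp) (TH_dom ht fun i => ?_)
    simp only [absH_apply, lp.coeFn_add, Pi.add_apply, ← Complex.ofReal_add, Complex.norm_real,
      Real.norm_eq_abs, abs_norm]
    exact (norm_add_le _ _).trans (le_abs_self _)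
  rw [absH_of_nonneg h1, map_add] at h2
  exact h2.trans ((norm_add_le _ _).trans (add_le_add (le_NN ht x) (le_NN ht y)))

lemma NN_smul (c : ℂ) (x : H) : NN (c • x) = ‖c‖ * NN x := by
  have : absH (c • x) = (‖c‖ : ℂ) • absH x := by
    ext i
    rw [lp.coeFn_smul, Pi.smul_apply, absH_apply, absH_apply, lp.coeFn_smul, Pi.smul_apply,
      norm_smul, smul_eq_mul, Complex.ofReal_mul]
  simp only [NN, this, map_smul, norm_smul, Complex.norm_real, norm_norm]
  rw [Real.mul_iSup_of_nonneg (norm_nonneg c)]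

lemma NN_TH {s : ℝ} (hs : 0 ≤ s) (x : H) : NN (TH s x) ≤ NN x := by
  refine (NN_mono (TH_dom hs (y := x) fun i => le_rfl)).trans (NN_le fun t ht => ?_)
  rw [absH_of_nonneg (TH_nonneg hs (absH_nonneg x)), ← mul_apply_eq_comp, ← TH_add ht hs]
  exact le_NN (add_nonneg ht hs) x

/-- The renormed space. -/
def XX : Type := H

instance : AddCommGroup XX := inferInstanceAs (AddCommGroup H)
instance : Module ℂ XX := inferInstanceAs (Module ℂ H)

def toH : XX ≃ₗ[ℂ] H := LinearEquiv.refl ℂ H

instance : Norm XX := ⟨fun x => NN (toH x)⟩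

lemma coreXX : NormedSpace.Core ℂ XX where
  norm_nonneg x := (norm_nonneg _).trans (norm_le_NN (toH x))
  norm_smul c x := NN_smul c (toH x)
  norm_triangle x y := NN_add (toH x) (toH y)
  norm_eq_zero_iff x := by
    constructor
    · intro h
      have h1 := norm_le_NN (toH x)
      have h2 : NN (toH x) = 0 := h
      rw [h2, norm_le_zero_iff] at h1
      exact toH.map_eq_zero_iff.1 h1
    · rintro rfl
      have h1 := NN_le_norm (toH 0)
      have h2 := norm_le_NN (toH 0)
      rw [map_zero, norm_zero] at h1 h2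
      rw [mul_zero] at h1
      exact le_antisymm h1 h2

instance : NormedAddCommGroup XX := NormedAddCommGroup.ofCore coreXX
instance : NormedSpace ℂ XX := NormedSpace.ofCore coreXX

lemma norm_XX (x : XX) : ‖x‖ = NN (toH x) := rfl

def eH : XX ≃L[ℂ] H := toH.toContinuousLinearEquivOfBounds 1 4
  (fun x => by rw [one_mul]; exact norm_le_NN (toH x))
  (fun x => by rw [norm_XX, LinearEquiv.apply_symm_apply]; exact NN_le_norm x)

lemma norm_XX' (x : XX) : ‖x‖ = NN (eH x) := rfl

instance : CompleteSpace XX :=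
  (eH.toContinuousLinearMap.isUniformEmbedding_of_bound (K := 4) fun x =>
    NN_le_norm (eH x)).isUniformInducing.completeSpace_congr eH.surjective |>.2 inferInstance

/-- The real part. -/
def EEsub : Submodule ℝ XX where
  carrier := {x | ∀ i, (eH x i).im = 0}
  add_mem' {a b} ha hb i := by simp [map_add, ha i, hb i]
  zero_mem' i := by simp
  smul_mem' r x hx i := by
    rw [← Complex.coe_smul, map_smul, lp.coeFn_smul, Pi.smul_apply, smul_eq_mul,
      Complex.im_ofReal_mul, hx i, mul_zero]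

def EE : Type := EEsub

instance : NormedAddCommGroup EE := inferInstanceAs (NormedAddCommGroup EEsub)
instance : NormedSpace ℝ EE := inferInstanceAs (NormedSpace ℝ EEsub)

def iota : EE →ₗ[ℝ] XX := EEsub.subtype

lemma norm_iota (a : EE) : ‖iota a‖ = ‖a‖ := rfl

lemma iota_im (a : EE) (i : ℕ) : (eH (iota a) i).im = 0 := a.2 i

lemma isClosed_EEsub : IsClosed (EEsub : Set XX) := by
  have : (EEsub : Set XX) = ⋂ i, {x | (eH x i).im = 0} := by
    ext x; simp [EEsub]
  rw [this]
  refine isClosed_iInter fun i => isClosed_eq ?_ continuous_const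
  exact Complex.continuous_im.comp
    ((lp.evalCLM ℂ (fun _ : ℕ => ℂ) 2 i).continuous.comp eH.continuous)

instance : CompleteSpace EE := isClosed_EEsub.completeSpace_coe

def co (a : EE) (i : ℕ) : ℝ := (eH (iota a) i).re

lemma iota_apply (a : EE) (i : ℕ) : eH (iota a) i = (co a i : ℂ) :=
  Complex.ext rfl (by simp [iota_im])

lemma co_inj : Function.Injective co := fun a b h => by
  apply Subtype.ext
  apply eH.injective
  ext i
  exact (iota_apply a i).trans ((congrArg _ (congrFun h i)).trans (iota_apply b i).symm)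

def mkE (f : ℕ → ℝ) (x : H) (h : ∀ i, |f i| ≤ ‖x i‖) : EE :=
  ⟨eH.symm ⟨fun i => (f i : ℂ), (lp.memℓp x).mono' fun i => by simpa using h i⟩, fun i => by
    rw [ContinuousLinearEquiv.apply_symm_apply]; exact Complex.ofReal_im _⟩

lemma co_mkE (f : ℕ → ℝ) (x : H) (h : ∀ i, |f i| ≤ ‖x i‖) : co (mkE f x h) = f := by
  funext i
  exact Complex.ofReal_re _

lemma co_add (a b : EE) : co (a + b) = co a + co b := by
  funext i; simp [co, map_add]

lemma co_neg (a : EE) : co (-a) = -co a := by
  funext i; simp [co, map_neg]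

lemma co_zero : co 0 = 0 := by
  funext i; simp [co]

lemma co_smul (r : ℝ) (a : EE) : co (r • a) = r • co a := by
  funext i
  rw [co, map_smul, ← Complex.coe_smul, map_smul, lp.coeFn_smul, Pi.smul_apply, smul_eq_mul,
    Complex.re_ofReal_mul]
  rfl

lemma sum_abs_bound (a b : EE) (i : ℕ) :
    |co a i| + |co b i| = ‖(absH (eH (iota a)) + absH (eH (iota b))) i‖ := by
  simp only [lp.coeFn_add, Pi.add_apply, absH_apply, iota_apply, ← Complex.ofReal_add,
    Complex.norm_real, Real.norm_eq_abs]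
  exact (abs_of_nonneg (by positivity)).symm

instance : LE EE := ⟨fun a b => co a ≤ co b⟩
instance : LT EE := ⟨fun a b => co a < co b⟩
instance : Max EE := ⟨fun a b => mkE (co a ⊔ co b) _ fun i => by
  rw [← sum_abs_bound a b i]
  have := abs_nonneg (co a i); have := abs_nonneg (co b i)
  exact (abs_max_le_max_abs_abs).trans (max_le (by linarith) (by linarith))⟩
instance : Min EE := ⟨fun a b => mkE (co a ⊓ co b) _ fun i => by
  rw [← sum_abs_bound a b i]
  have := abs_nonneg (co a i); have := abs_nonneg (co b i)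
  exact (abs_min_le_max_abs_abs).trans (max_le (by linarith) (by linarith))⟩

instance : Lattice EE :=
  co_inj.lattice co Iff.rfl Iff.rfl (fun _ _ => co_mkE _ _ _) (fun _ _ => co_mkE _ _ _)

lemma le_def (a b : EE) : a ≤ b ↔ co a ≤ co b := Iff.rfl

lemma co_sup (a b : EE) : co (a ⊔ b) = co a ⊔ co b := co_mkE _ _ _

lemma co_abs (a : EE) (i : ℕ) : co |a| i = |co a i| := by
  rw [abs, co_sup, co_neg]; rfl

instance : IsOrderedAddMonoid EE where
  add_le_add_left a b h c := by
    rw [le_def] at h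
    rw [le_def, co_add, co_add]; exact add_le_add_left h _

instance : IsOrderedModule ℝ EE where
  smul_le_smul_of_nonneg_left r hr a b h := by
    rw [le_def, co_smul, co_smul]; exact smul_le_smul_of_nonneg_left h hr
  smul_le_smul_of_nonneg_right a ha r s h := by
    rw [le_def, co_zero] at ha
    rw [le_def, co_smul, co_smul]; exact smul_le_smul_of_nonneg_right h ha

instance : HasSolidNorm EE where
  solid a b h := by
    rw [← norm_iota, ← norm_iota, norm_XX', norm_XX']
    refine NN_mono fun i => ?_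
    have := h i
    rw [co_abs, co_abs] at this
    simpa [iota_apply] using this

lemma complexification : IsComplexification EE XX iota := by
  have happ : ∀ (a b : EE) i, eH (iota a + Complex.I • iota b) i = ⟨co a i, co b i⟩ := by
    intro a b i
    simp only [map_add, map_smul, lp.coeFn_add, lp.coeFn_smul, Pi.add_apply, Pi.smul_apply,
      iota_apply]
    apply Complex.ext <;> simp
  refine ⟨⟨?_, ?_⟩, ?_⟩
  · rintro ⟨a, b⟩ ⟨c, d⟩ h
    have h1 : ∀ i, (⟨co a i, co b i⟩ : ℂ) = ⟨co c i, co d i⟩ := fun i => by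
      rw [← happ, ← happ]; exact congrArg (fun x => eH x i) h
    refine Prod.ext (co_inj (funext fun i => ?_)) (co_inj (funext fun i => ?_))
    · exact (Complex.mk.inj (h1 i)).1
    · exact (Complex.mk.inj (h1 i)).2
  · intro x
    refine ⟨(mkE (fun i => (eH x i).re) (eH x) fun i => Complex.abs_re_le_norm _,
      mkE (fun i => (eH x i).im) (eH x) fun i => Complex.abs_im_le_norm _), ?_⟩
    apply eH.injective
    ext i
    simp only [happ, co_mkE]
  · intro a b
    set x := iota a + Complex.I • iota b with hx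
    refine ⟨mkE (fun i => ‖eH x i‖) (eH x) fun i => by simp, ⟨?_, ?_⟩, ?_⟩
    · rintro _ ⟨θ, rfl⟩
      rw [le_def, co_mkE, co_add, co_smul, co_smul]
      intro i
      simp only [Pi.add_apply, Pi.smul_apply, smul_eq_mul, hx, happ]
      have h1 := Complex.re_le_norm (Complex.exp (-θ * Complex.I) * ⟨co a i, co b i⟩)
      rw [norm_mul, ← Complex.ofReal_neg, Complex.norm_exp_ofReal_mul_I, one_mul,
        Complex.mul_re, Complex.exp_ofReal_mul_I_re, Complex.exp_ofReal_mul_I_im,
        Real.cos_neg, Real.sin_neg] at h1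
      linarith
    · intro m hm
      rw [le_def, co_mkE]
      intro i
      have h1 := hm ⟨Complex.arg (eH x i), rfl⟩ i
      rw [co_add, co_smul, co_smul] at h1
      simp only [Pi.add_apply, Pi.smul_apply, smul_eq_mul] at h1
      refine le_trans (le_of_eq ?_) h1
      have h2 := Complex.norm_mul_cos_arg (eH x i)
      have h3 := Complex.norm_mul_sin_arg (eH x i)
      have h4 : (eH x i).re = co a i := by rw [hx, happ]
      have h5 : (eH x i).im = co b i := by rw [hx, happ]
      have h6 := Real.sin_sq_add_cos_sq (Complex.arg (eH x i))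
      rw [← h4, ← h5, ← h2, ← h3]
      linear_combination (-‖eH x i‖) * h6
    · rw [← norm_iota, norm_XX', norm_XX']
      apply le_antisymm <;> refine NN_mono fun i => ?_ <;> simp [iota_apply, co_mkE]

end

end Pool.Agent.P.MP_04e97d_an
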